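import Pool.Agent.Q155.NL.N49

/-!
# Means and tails over the divisors
-/

set_option autoImplicit false
set_option linter.unusedSectionVars false

namespace Q155.NL

open Finset Filter Topology
open Q155.KG (FI al FI_pow fb al_zero al_one al_two al_three c2_lt)
open Pool.Agent.Y703.CQ (c2)
open scoped Classical

/-- the mean of a function over the divisors -/
noncomputable def dav (g : ℕ → ℕ) (D : ℕ) : ℝ := (∑ d ∈ D.divisors, (g d : ℝ)) / D.divisors.card

theorem sum_dsh (g : ℕ → ℕ) (D b : ℕ) :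
    (∑ d ∈ D.divisors, FI b (2 ^ g d)) / D.divisors.card = dsh g D b := by
  unfold dsh
  simp_rw [FI_pow]
  unfold fb
  rw [Finset.sum_boole]

/-- **The mean corank.** -/
theorem mean_div {g : ℕ → ℕ} {D : ℕ} {ε : ℝ} (h : LD g ε D) : dav g D < 0.7647 + 3 * ε := by
  have h1 : ∀ n : ℕ, (n : ℝ) ≤ -(1 / 4) * FI 0 (2 ^ n) + 1 / 2 * FI 1 (2 ^ n) + FI 2 (2 ^ n) +
      FI 3 (2 ^ n) + 1 / 4 * (2 : ℝ) ^ n := by
    intro n
    rw [FI_pow, FI_pow, FI_pow, FI_pow]
    unfold fb
    rcases n with _ | _ | _ | _ | n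
    · norm_num
    · norm_num
    · norm_num
    · norm_num
    · have e0 : n + 1 + 1 + 1 + 1 ≠ 0 := by omega
      have e1 : n + 1 + 1 + 1 + 1 ≠ 1 := by omega
      have e2 : n + 1 + 1 + 1 + 1 ≠ 2 := by omega
      have e3 : n + 1 + 1 + 1 + 1 ≠ 3 := by omega
      rw [if_neg e0, if_neg e1, if_neg e2, if_neg e3]
      have h2 : n + 1 ≤ 2 ^ n := Nat.lt_two_pow_self
      have h3 : (n : ℝ) + 1 ≤ 2 ^ n := by exact_mod_cast h2
      push_cast
      rw [pow_succ, pow_succ, pow_succ, pow_succ]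
      linarith
  have h2 : dav g D ≤ -(1 / 4) * dsh g D 0 + 1 / 2 * dsh g D 1 +
      dsh g D 2 + dsh g D 3 + 1 / 4 * dme g D := by
    rw [← sum_dsh, ← sum_dsh, ← sum_dsh, ← sum_dsh]
    unfold dme dav
    have e : -(1 / 4 : ℝ) * ((∑ d ∈ D.divisors, FI 0 (2 ^ g d)) / D.divisors.card) +
        1 / 2 * ((∑ d ∈ D.divisors, FI 1 (2 ^ g d)) / D.divisors.card) +
        (∑ d ∈ D.divisors, FI 2 (2 ^ g d)) / D.divisors.card +
        (∑ d ∈ D.divisors, FI 3 (2 ^ g d)) / D.divisors.card +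
        1 / 4 * ((∑ d ∈ D.divisors, (2 : ℝ) ^ g d) / D.divisors.card) =
        (∑ d ∈ D.divisors, (-(1 / 4) * FI 0 (2 ^ g d) + 1 / 2 * FI 1 (2 ^ g d) + FI 2 (2 ^ g d) +
          FI 3 (2 ^ g d) + 1 / 4 * (2 : ℝ) ^ g d)) / D.divisors.card := by
      rw [Finset.sum_add_distrib, Finset.sum_add_distrib, Finset.sum_add_distrib,
        Finset.sum_add_distrib, ← Finset.mul_sum, ← Finset.mul_sum, ← Finset.mul_sum]
      ring
    rw [e]
    exact div_le_div_of_nonneg_right (Finset.sum_le_sum fun d _ => h1 (g d)) (Nat.cast_nonneg _)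
  have a0 := (abs_lt.1 (h.1 0)).1
  have a1 := (abs_lt.1 (h.1 1)).2
  have a2 := (abs_lt.1 (h.1 2)).2
  have a3 := (abs_lt.1 (h.1 3)).2
  have a4 := (abs_lt.1 h.2).2
  rw [al_zero] at a0
  rw [al_one] at a1
  rw [al_two] at a2
  rw [al_three] at a3
  have h3 := c2_lt
  linarith

/-- the share of the divisors with values at most `t` -/
theorem share_le {g : ℕ → ℕ} {D : ℕ} {ε : ℝ} (h : LD g ε D) (t : ℕ) :
    ∑ b ∈ range (t + 1), al b - (t + 1) * ε ≤
      ((D.divisors.filter fun d => g d ≤ t).card : ℝ) / D.divisors.card := by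
  have h1 : ((D.divisors.filter fun d => g d ≤ t).card : ℝ) / D.divisors.card =
      ∑ b ∈ range (t + 1), dsh g D b := by
    unfold dsh
    rw [← Finset.sum_div]
    congr 1
    rw [← Nat.cast_sum, ← Finset.card_biUnion]
    · congr 2
      ext d
      rw [Finset.mem_filter, Finset.mem_biUnion]
      constructor
      · rintro ⟨h2, h3⟩
        exact ⟨g d, Finset.mem_range.2 (by omega), Finset.mem_filter.2 ⟨h2, rfl⟩⟩
      · rintro ⟨b, hb, h2⟩
        obtain ⟨h3, h4⟩ := Finset.mem_filter.1 h2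
        have := Finset.mem_range.1 hb
        exact ⟨h3, by omega⟩
    · intro b _ b' _ hbb
      show Disjoint _ _
      rw [Finset.disjoint_left]
      intro d hd hd'
      exact hbb ((Finset.mem_filter.1 hd).2.symm.trans (Finset.mem_filter.1 hd').2)
  rw [h1]
  have h2 : ∑ b ∈ range (t + 1), (al b - ε) ≤ ∑ b ∈ range (t + 1), dsh g D b :=
    Finset.sum_le_sum fun b _ => by
      have := (abs_lt.1 (h.1 b)).1
      linarith
  rw [Finset.sum_sub_distrib, Finset.sum_const, Finset.card_range, nsmul_eq_mul] at h2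
  push_cast at h2
  linarith

/-- the tails of the limit law -/
theorem tail (t : ℕ) : 1 - ∑ b ∈ range (t + 1), al b ≤
    1 / ∏ i ∈ range (t + 1), ((2 : ℝ) ^ (i + 1) - 1) := by
  have h1 := Q283.GS.tail_al t
  simp_rw [al_cf] at h1
  refine h1.trans (le_of_eq ?_)
  have h : ∀ r, Pool.Agent.Y697.PQ.cf r = 1 / ∏ i ∈ range r, ((2 : ℝ) ^ (i + 1) - 1) := by
    intro r
    induction r with
    | zero => simp [Pool.Agent.Y697.PQ.cf]
    | succ r ih =>
      rw [show Pool.Agent.Y697.PQ.cf (r + 1) = Pool.Agent.Y697.PQ.cf r / (2 ^ (r + 1) - 1) from rfl,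
        ih, Finset.prod_range_succ, div_div]
  exact h _

end Q155.NL
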