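import Pool.Agent.Q283.GM.ASY

/-!
# Natural-order laws for a general property of the symbols (project NL)

The method of `Pool.Agent.Q283.GM` (boxes, bilinear sums, sieve) for an arbitrary property `T` of the
squarefree numbers of a family, instead of the joint law of the coranks. `N S₀ S₁` is the regularity of the
labels of the large primes `S₁` with respect to the small primes `S₀`. Statements of the parts.
-/

set_option autoImplicit false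
set_option linter.unusedVariables false

open scoped Classical

namespace Q155.NL

open Finset Filter
open Q283.GM (Fam Ok SS RR)
open Pool.Agent.Y703.CX (sm la jj XX eL zz kk)
open Pool.Agent.Y703.CQ (nr sg prs HB Sml)

/-- for every nonempty set `w` of active primes of `S₀` at least `L` active primes `p` of `S₁` for which the
product of the primes of `w` is not a square modulo `p` -/
def RN (Φ : Fam) (L : ℕ) (S₀ S₁ : Finset ℕ) : Prop :=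
  ∀ w : Finset ℕ, w ⊆ S₀ → w.Nonempty → (∀ u ∈ w, Φ.A u) →
    L ≤ (S₁.filter fun p => Φ.A p ∧ ∑ u ∈ w, nr p u ≠ 0).card

/-- the regular labels: `A (#S₀ + #W) + R` primes of each kind -/
def Rg (Φ : Fam) (A R : ℕ) (W S₀ S₁ : Finset ℕ) : Prop :=
  RN Φ (A * (S₀ ∪ W).card + R) (S₀ ∪ W) S₁ ∧
    A * (S₀ ∪ W).card + R ≤ (S₁.filter fun p => Φ.A p).card ∧
    A * (S₀ ∪ W).card + R ≤ (S₁.filter fun p => ¬ Φ.A p).card

/-- the label of a prime `x` with respect to the set `S` -/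
noncomputable def lb (f : ℕ → ZMod 2) (S : Finset ℕ) (x : ℕ) :
    (S → ZMod 2) × (S → ZMod 2) × ZMod 2 := (fun u => nr u x, fun u => nr x u, f x)

/-- admissible tuples -/
def Tu (Φ : Fam) {ι : Type} (J1 : Finset ι) (S : Finset ℕ) (p : ι → ℕ) : Prop :=
  Function.Injective p ∧ ∀ i, Φ.P (p i) ∧ p i ∉ S ∧ (i ∈ J1 ↔ Φ.A (p i))

/-- the statement for the boxes -/
def BX (Φ : Fam) (N : Finset ℕ → Finset ℕ → Prop) (T : Finset ℕ → Prop) (W : Finset ℕ) (ε : ℝ) :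
    Prop := ∀ (ι : Type) [Fintype ι] [LinearOrder ι] (J1 : Finset ι) (C : ι → Finset ℕ) (X : ι → ℕ)
  (κ : ℝ) (S₀ : Finset ℕ), 0 ≤ κ → (∀ i, (C i).card ≤ X i) → HB J1 C X κ → (∀ u ∈ S₀, Φ.P u) →
  (∀ i, ∀ p ∈ C i, Φ.P p ∧ p ∉ S₀ ∪ W ∧ (i ∈ J1 ↔ Φ.A p)) →
  (∀ i l, i ≠ l → Disjoint (C i) (C l)) →
  (((Fintype.piFinset C).filter fun p => N S₀ (univ.image p)).card : ℝ) ≤
    (((Fintype.piFinset C).filter fun p => N S₀ (univ.image p) ∧ T (S₀ ∪ univ.image p)).card : ℝ) +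
    ε * (((Fintype.piFinset C).filter fun p => N S₀ (univ.image p)).card : ℝ) +
    2 ^ ((2 * (S₀ ∪ W).card + 1) * Fintype.card ι + (prs J1).card) * (κ * ∏ j, (X j : ℝ))

/-- the regularity depends on the labels only -/
def LabN (Φ : Fam) (f : ℕ → ZMod 2) (N : Finset ℕ → Finset ℕ → Prop) (W : Finset ℕ) : Prop :=
  ∀ (ι : Type) [Fintype ι] (J1 : Finset ι) (S₀ : Finset ℕ) (p q : ι → ℕ), (∀ u ∈ S₀, Φ.P u) →
    Tu Φ J1 (S₀ ∪ W) p → Tu Φ J1 (S₀ ∪ W) q →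
    (∀ i, lb f (S₀ ∪ W) (p i) = lb f (S₀ ∪ W) (q i)) →
    N S₀ (univ.image p) → N S₀ (univ.image q)

/-- for given regular labels all but the proportion `ε` of the tables of symbols of the large primes have
the property -/
def Loc (Φ : Fam) (f : ℕ → ZMod 2) (N : Finset ℕ → Finset ℕ → Prop) (T : Finset ℕ → Prop)
    (W : Finset ℕ) (ε : ℝ) : Prop :=
  ∀ (ι : Type) [Fintype ι] [LinearOrder ι] (J1 : Finset ι) (S₀ : Finset ℕ) (q : ι → ℕ),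
    (∀ u ∈ S₀, Φ.P u) → Tu Φ J1 (S₀ ∪ W) q → N S₀ (univ.image q) →
    ∃ Q : (prs J1 → ZMod 2) → Prop,
      ((univ.filter fun α => ¬ Q α).card : ℝ) ≤ ε * 2 ^ (prs J1).card ∧
      ∀ p : ι → ℕ, Tu Φ J1 (S₀ ∪ W) p → (∀ i, lb f (S₀ ∪ W) (p i) = lb f (S₀ ∪ W) (q i)) →
        Q (fun e => nr (p e.1.1) (p e.1.2)) → T (S₀ ∪ univ.image p)

/-- JOB NL-BOX (after `Q283.GM.t_BOX`; uses `Pool.Agent.Y356.CQ.t_EQ`). -/
def S_BOX : Prop := ∀ (Φ : Fam) (f : ℕ → ZMod 2) (N : Finset ℕ → Finset ℕ → Prop)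
  (T : Finset ℕ → Prop) (W : Finset ℕ) (ε : ℝ), 0 ≤ ε → LabN Φ f N W → Loc Φ f N T W ε →
  BX Φ N T W ε

/-- JOB NL-KEY (after `Q283.GM.per_key`, `Q283.GM.t_KEY`). -/
def S_KEY : Prop := ∀ Φ : Fam, ∃ C : ℝ, 1 ≤ C ∧
  ∀ (N : Finset ℕ → Finset ℕ → Prop) (T : Finset ℕ → Prop) (W : Finset ℕ) (ε : ℝ), 0 ≤ ε →
  BX Φ N T W ε → ∀ (X z H k V M : ℕ) (κ : ℝ), (∀ u ∈ W, u ≤ z) → W.card ≤ k → 1 ≤ k →
  1 ≤ X → 1 ≤ H → 1 ≤ z → 0 ≤ κ → C ≤ κ ^ 12 * z → (H : ℝ) * Real.log X < M →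
  (((RR Φ X z H k V).filter fun S => N (sm z S) (la z S)).card : ℝ) ≤
    (((RR Φ X z H k V).filter fun S => N (sm z S) (la z S) ∧ T S).card : ℝ) +
    ε * ((RR Φ X z H k V).card : ℝ) +
    (9 * M + 9 : ℝ) ^ k * (3 ^ (6 * k ^ 2) * κ) * (X * (1 + Real.log X))

/-- JOB NL-BAD (after `Q283.GM.sml_bad`, with the weights `1/4` of `Q283.GM.sml_few0`). -/
def S_BAD : Prop := ∀ (Φ : Fam) (δ : ℝ), Ok Φ δ → ∀ (A R : ℕ) (W : Finset ℕ), (∀ u ∈ W, u.Prime) →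
  Sml (1 - δ) fun X => (((SS Φ X).filter fun S => S.card ≤ kk X ∧
    ¬ Rg Φ A R W (sm (zz X) S) (la (zz X) S)).card : ℝ)

/-- JOB NL-ASY (after `Q283.GM.t_DQ`). -/
def S_ASY : Prop := S_KEY → S_BAD → ∀ (Φ : Fam) (δ : ℝ), Ok Φ δ → ∀ (T : Finset ℕ → Prop)
  (W : Finset ℕ), (∀ u ∈ W, u.Prime) → (∀ ε : ℝ, 0 < ε → ∃ A R : ℕ, BX Φ (Rg Φ A R W) T W ε) →
  Tendsto (fun X : ℕ => (((SS Φ X).filter T).card : ℝ) / ((SS Φ X).card : ℝ)) atTop (nhds 1)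

end Q155.NL
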