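import Pool.Agent.Q155.NL.NatD
import Pool.Agent.Q155.KG.KF

/-!
# The law of large numbers over the divisors for `X_0(49)`, in the natural order, for all the base twists
-/

set_option autoImplicit false
set_option linter.unusedSectionVars false

namespace Q155.NL

open Finset Filter Topology
open Q155.KG (FI al FI_pow fb cr kn kn_cr Nr shr mea sum_FI)
open Q283.GM (Fam Ok SS rk)
open Q283.GW (C4 CF ρ49 P49)
open Q283.XF (nf)
open Pool.Agent.Q1.PT (avg avg_equiv)
open scoped Classical

/-- the squarefree part of `m D` -/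
def tw (m D : ℕ) : ℕ := m * D / Nat.gcd m D ^ 2

theorem tw_eq {m D : ℕ} (hm : Squarefree m) (hD : Squarefree D) :
    tw m D = ∏ p ∈ symmDiff D.primeFactors m.primeFactors, p := by
  set S := D.primeFactors with hS
  set T := m.primeFactors with hT
  have e1 : m = (∏ p ∈ S ∩ T, p) * ∏ p ∈ T \ S, p := by
    conv_lhs => rw [← Nat.prod_primeFactors_of_squarefree hm]
    rw [← hT, ← Finset.prod_union]
    · congr 1
      ext a
      simp only [Finset.mem_union, Finset.mem_inter, Finset.mem_sdiff]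
      tauto
    · rw [Finset.disjoint_left]
      intro a ha hb
      exact (Finset.mem_sdiff.1 hb).2 (Finset.mem_inter.1 ha).1
  have e2 : D = (∏ p ∈ S ∩ T, p) * ∏ p ∈ S \ T, p := by
    conv_lhs => rw [← Nat.prod_primeFactors_of_squarefree hD]
    rw [← hS, ← Finset.prod_union]
    · congr 1
      ext a
      simp only [Finset.mem_union, Finset.mem_inter, Finset.mem_sdiff]
      tauto
    · rw [Finset.disjoint_left]
      intro a ha hb
      exact (Finset.mem_sdiff.1 hb).2 (Finset.mem_inter.1 ha).2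
  have hg : Nat.gcd m D = ∏ p ∈ S ∩ T, p := by
    conv_lhs => rw [e1, e2]
    rw [Nat.gcd_mul_left]
    have hc : Nat.Coprime (∏ p ∈ T \ S, p) (∏ p ∈ S \ T, p) := by
      refine Nat.Coprime.prod_left fun p hp => Nat.Coprime.prod_right fun q hq => ?_
      refine (Nat.coprime_primes (Nat.prime_of_mem_primeFactors (Finset.mem_sdiff.1 hp).1)
        (Nat.prime_of_mem_primeFactors (Finset.mem_sdiff.1 hq).1)).2 ?_
      rintro rfl
      exact (Finset.mem_sdiff.1 hp).2 (Finset.mem_sdiff.1 hq).1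
    rw [hc.gcd_eq_one, mul_one]
  have hpos : 0 < ∏ p ∈ S ∩ T, p := Finset.prod_pos fun p hp =>
    (Nat.prime_of_mem_primeFactors (Finset.mem_inter.1 hp).1).pos
  unfold tw
  rw [hg]
  have e3 : m * D = (∏ p ∈ symmDiff S T, p) * (∏ p ∈ S ∩ T, p) ^ 2 := by
    conv_lhs => rw [e1, e2]
    rw [Finset.symmDiff_def, Finset.prod_union]
    · ring
    · rw [Finset.disjoint_left]
      intro a ha hb
      exact (Finset.mem_sdiff.1 ha).2 (Finset.mem_sdiff.1 hb).1
  rw [e3]
  exact Nat.mul_div_cancel _ (pow_pos hpos 2)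

theorem sqf_prod {J : Finset ℕ} (hJ : ∀ q ∈ J, q.Prime) : Squarefree (∏ q ∈ J, q) := by
  induction J using Finset.induction_on with
  | empty => simp
  | insert p J hp ih =>
    rw [Finset.prod_insert hp]
    have h1 := ih fun q hq => hJ q (Finset.mem_insert_of_mem hq)
    have hpp := hJ p (Finset.mem_insert_self p J)
    refine (Nat.squarefree_mul ?_).2 ⟨hpp.squarefree, h1⟩
    rw [hpp.coprime_iff_not_dvd]
    intro hd
    obtain ⟨q, hq, hpq⟩ := (hpp.prime.dvd_finsetProd_iff _).1 hd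
    rw [(Nat.prime_dvd_prime_iff_eq hpp (hJ q (Finset.mem_insert_of_mem hq))).1 hpq] at hp
    exact hp hq

theorem tw_pf {m D : ℕ} (hm : Squarefree m) (hD : Squarefree D) :
    Squarefree (tw m D) ∧ (tw m D).primeFactors = symmDiff D.primeFactors m.primeFactors := by
  have hp : ∀ p ∈ symmDiff D.primeFactors m.primeFactors, p.Prime := by
    intro p hp
    rcases Finset.mem_symmDiff.1 hp with h | h
    · exact Nat.prime_of_mem_primeFactors h.1
    · exact Nat.prime_of_mem_primeFactors h.1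
  rw [tw_eq hm hD]
  exact ⟨sqf_prod hp, Nat.primeFactors_prod hp⟩

theorem tw_class {m D : ℕ} (hm : C4 m) (hD : C4 D) : C4 (tw m D) := by
  obtain ⟨h1, h2⟩ := tw_pf hm.1 hD.1
  refine ⟨h1, ?_⟩
  rw [h2]
  exact hD.2.symmDiff hm.2

theorem tw_cop {m d : ℕ} (h : Nat.Coprime m d) : tw m d = m * d := by
  unfold tw
  rw [Nat.Coprime.gcd_eq_one h, one_pow, Nat.div_one]

theorem c4_dvd {d D : ℕ} (hD : C4 D) (hd : d ∣ D) : C4 d :=
  ⟨hD.1.squarefree_of_dvd hd, fun p hp => hD.2 p (Nat.primeFactors_mono hd hD.1.ne_zero hp)⟩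

theorem cl_iff (D : ℕ) : Cl ρ49.Φ D ↔ C4 D := by
  unfold Cl C4 CF
  refine and_congr_right fun _ => forall_congr' fun p => forall_congr' fun _ => ?_
  exact P49 p

/-- the law depends on the values at the divisors only -/
theorem ld_congr {g g' : ℕ → ℕ} {D : ℕ} (h : ∀ d, d ∣ D → g d = g' d) (ε : ℝ) :
    LD g ε D ↔ LD g' ε D := by
  have h1 : ∀ b, dsh g D b = dsh g' D b := by
    intro b
    unfold dsh
    rw [Finset.filter_congr fun d hd => by rw [h d (Nat.dvd_of_mem_divisors hd)]]
  have h2 : dme g D = dme g' D := by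
    unfold dme
    rw [Finset.sum_congr rfl fun d hd => by rw [h d (Nat.dvd_of_mem_divisors hd)]]
  unfold LD
  simp_rw [h1, h2]

theorem ld_mono {g : ℕ → ℕ} {D : ℕ} {ε ε' : ℝ} (h : LD g ε D) (h' : ε ≤ ε') : LD g ε' D :=
  ⟨fun b => (h.1 b).trans_le h', h.2.trans_le h'⟩

/-- **The law for almost all `D`, one base twist.** -/
theorem alm49 {m : ℕ} (hm : C4 m) {ε : ℝ} (hε : 0 < ε) :
    Alm C4 (LD (fun d => cr (tw m d)) ε) := by
  have h1 := alm_law ρ49.Φ ρ49.ok nf (U₀ := m.primeFactors)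
    (fun u hu => Nat.prime_of_mem_primeFactors hu) hε
  have h2 : Cl ρ49.Φ = C4 := funext fun D => propext (cl_iff D)
  rw [h2] at h1
  refine alm_mono h1 fun D hD h => (ld_congr (fun d hd => ?_) ε).1 h
  unfold cr
  rw [(tw_pf hm.1 (c4_dvd hD hd).1).2]

/-- **One set of relative density one for all the base twists.** -/
theorem dense49 : ∃ S : ℕ → Prop, (∀ D, S D → C4 D) ∧
    Tendsto (fun X : ℕ => (cnt S X : ℝ) / cnt C4 X) atTop (𝓝 1) ∧
    ∀ m, C4 m → ∀ ε : ℝ, 0 < ε → ∀ᶠ D in atTop, S D → LD (fun d => cr (tw m d)) ε D := by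
  obtain ⟨S, h1, h2⟩ := exists_dense (C := C4)
    (T := fun j D => C4 (Nat.unpair j).1 →
      LD (fun d => cr (tw (Nat.unpair j).1 d)) (1 / ((Nat.unpair j).2 + 1 : ℝ)) D)
    (fun j => by
      by_cases hj : C4 (Nat.unpair j).1
      · exact alm_mono (alm49 hj (by positivity)) fun D _ h _ => h
      · exact alm_mono (alm_true C4) fun D _ _ h => absurd h hj)
  refine ⟨fun D => C4 D ∧ S D, fun D h => h.1, ?_, ?_⟩
  · exact tendsto_of_alm ⟨1, le_rfl, squarefree_one, by
      intro p hp
      rw [Nat.primeFactors_one] at hp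
      exact absurd hp (Finset.notMem_empty p)⟩ h1
  · intro m hm ε hε
    obtain ⟨n, hn⟩ := exists_nat_gt (1 / ε)
    filter_upwards [h2 (Nat.pair m n)] with D hD hS
    have h3 := hD hS.2
    rw [Nat.unpair_pair] at h3
    refine ld_mono (h3 hm) ?_
    rw [div_le_iff₀ (by positivity)]
    rw [div_lt_iff₀ hε] at hn
    nlinarith

/-- the law as a mean over the divisors -/
theorem ld_iff (g : ℕ → ℕ) (ε : ℝ) (D : ℕ) :
    LD g ε D ↔ Nl (fun d : ↥D.divisors => 2 ^ g d) ε := by
  unfold LD Nl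
  have h1 : ∀ b, avg (fun d : ↥D.divisors => FI b (2 ^ g d)) = dsh g D b := by
    intro b
    rw [avg_div D (fun d => FI b (2 ^ g d))]
    unfold dsh
    simp_rw [FI_pow]
    unfold fb
    rw [Finset.sum_boole]
  have h2 : avg (fun d : ↥D.divisors => ((2 ^ g d : ℕ) : ℝ)) = dme g D := by
    rw [avg_div D (fun d => ((2 ^ g d : ℕ) : ℝ))]
    unfold dme
    push_cast
    rfl
  simp_rw [h1, h2]

/-- the divisors of a product of different primes -/
noncomputable def eqF {k : ℕ} {p : Fin k → ℕ} (hp : ∀ i, (p i).Prime) {D : ℕ} (hD : Squarefree D)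
    (hprod : ∏ i, p i = D) : Finset (Fin k) ≃ ↥D.divisors :=
  Equiv.ofBijective (fun U => ⟨∏ i ∈ U, p i, by
    rw [Nat.mem_divisors]
    refine ⟨?_, hD.ne_zero⟩
    rw [← hprod]
    exact Finset.prod_dvd_prod_of_subset U univ p (Finset.subset_univ U)⟩) (by
    have hinj : Function.Injective p := by
      intro i j hij
      by_contra hne
      have h1 : p i * p j ∣ ∏ i, p i := by
        have h2 := Finset.prod_dvd_prod_of_subset {i, j} univ p (Finset.subset_univ _)
        rwa [Finset.prod_pair hne] at h2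
      rw [hprod, hij] at h1
      exact (hp j).one_lt.ne' (Nat.isUnit_iff.1 (hD (p j) h1))
    have hpf : ∀ U : Finset (Fin k), (∏ i ∈ U, p i).primeFactors = U.image p := by
      intro U
      rw [← Finset.prod_image (f := fun x : ℕ => x) (g := p) (fun i _ j _ h => hinj h)]
      exact Nat.primeFactors_prod fun q hq => by
        obtain ⟨i, -, rfl⟩ := Finset.mem_image.1 hq
        exact hp i
    constructor
    · intro U V h
      have h1 : ∏ i ∈ U, p i = ∏ i ∈ V, p i := congrArg (fun z : ↥D.divisors => (z : ℕ)) h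
      have h2 := congrArg Nat.primeFactors h1
      rw [hpf, hpf] at h2
      exact Finset.image_injective hinj h2
    · rintro ⟨d, hd⟩
      have hdD := Nat.dvd_of_mem_divisors hd
      refine ⟨univ.filter fun i => p i ∣ d, Subtype.ext ?_⟩
      show ∏ i ∈ univ.filter (fun i => p i ∣ d), p i = d
      have hds := hD.squarefree_of_dvd hdD
      have h3 : (univ.filter fun i => p i ∣ d).image p = d.primeFactors := by
        ext q
        rw [Finset.mem_image, Nat.mem_primeFactors]
        constructor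
        · rintro ⟨i, hi, rfl⟩
          exact ⟨hp i, (Finset.mem_filter.1 hi).2, hds.ne_zero⟩
        · rintro ⟨hq, hqd, -⟩
          have h4 : q ∣ ∏ i, p i := by
            rw [hprod]
            exact hqd.trans hdD
          obtain ⟨i, -, hi⟩ := (hq.prime.dvd_finsetProd_iff _).1 h4
          have h5 := (Nat.prime_dvd_prime_iff_eq hq (hp i)).1 hi
          exact ⟨i, Finset.mem_filter.2 ⟨Finset.mem_univ i, h5 ▸ hqd⟩, h5.symm⟩
      rw [← Finset.prod_image (f := fun x : ℕ => x) (g := p) (fun i _ j _ h => hinj h), h3]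
      exact Nat.prod_primeFactors_of_squarefree hds)

theorem nr_iff {k : ℕ} (f : Finset (Fin k) → ℕ) (ε : ℝ) : Nl f ε ↔ Nr f ε := by
  have h1 : ∀ b, avg (fun U => FI b (f U)) = shr f b := by
    intro b
    rw [← sum_FI]
    unfold avg
    rw [Fintype.card_finset, Fintype.card_fin]
    push_cast
    rfl
  have h2 : avg (fun U => (f U : ℝ)) = mea f := by
    unfold avg mea
    rw [Fintype.card_finset, Fintype.card_fin]
    push_cast
    rfl
  unfold Nl Nr
  simp_rw [h1, h2]

/-- **The law in terms of the tuple of the prime factors.** -/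
theorem nr49 {m D : ℕ} (hm : C4 m) (hD : C4 D) (hc : Nat.Coprime m D) {ε : ℝ}
    (h : LD (fun d => cr (tw m d)) ε D) {k : ℕ} {p : Fin k → ℕ} (hp : ∀ i, (p i).Prime)
    (hprod : ∏ i, p i = D) : Nr (fun U : Finset (Fin k) => kn (m * ∏ i ∈ U, p i)) ε := by
  rw [← nr_iff]
  have h1 := (ld_iff (fun d => cr (tw m d)) ε D).1 h
  have h0 := nl_congr (eqF hp hD.1 hprod) (K := fun d : ↥D.divisors => 2 ^ cr (tw m d))
    (K' := fun U : Finset (Fin k) => kn (m * ∏ i ∈ U, p i)) ?_ ε
  · exact h0.2 h1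
  intro U
  show 2 ^ cr (tw m (∏ i ∈ U, p i)) = kn (m * ∏ i ∈ U, p i)
  have hd : ∏ i ∈ U, p i ∣ D := by
    rw [← hprod]
    exact Finset.prod_dvd_prod_of_subset U univ p (Finset.subset_univ U)
  have hcd : Nat.Coprime m (∏ i ∈ U, p i) := Nat.Coprime.coprime_dvd_right hd hc
  have h2 := tw_class hm (c4_dvd hD hd)
  rw [tw_cop hcd] at h2 ⊢
  rw [kn_cr h2]

end Q155.NL
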