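import Pool.Agent.Q155.NL.Cmb
import Pool.Agent.Q155.KG.MainQ
import Pool.Agent.Q283.GM.Eul

/-!
# From the second moments of the shares and the first moment of the mean to the law of large numbers
-/

set_option autoImplicit false
set_option linter.unusedSectionVars false

namespace Q155.NL

open Finset Filter Topology
open Q155.KG (Lm FI al lm_FI al_nonneg al_le al_succ al_zero avg_nonneg avg_sq_le)
open Pool.Agent.Q1.PT (avg avg_equiv avg_prod avg_mono avg_const avg_add avg_sub abs_avg avg_hom)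
open scoped Classical

theorem al_cf (b : ℕ) : Q283.GS.al b = al b := by
  induction b with
  | zero =>
    rw [al_zero]
    unfold Q283.GS.al Pool.Agent.Y697.PQ.cf
    rw [mul_one]
  | succ b ih =>
    rw [al_succ, ← ih]
    unfold Q283.GS.al
    rw [show Pool.Agent.Y697.PQ.cf (b + 1) = Pool.Agent.Y697.PQ.cf b / (2 ^ (b + 1) - 1) from rfl,
      mul_div_assoc]

theorem hasSum_al : HasSum al 1 := by
  have := Q283.GS.hasSum_al
  rwa [show (Q283.GS.al : ℕ → ℝ) = al from funext al_cf] at this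

theorem mean_al (B : ℕ) : ∑ b ∈ range (B + 1), (2 : ℝ) ^ b * al b =
    ∑ b ∈ range (B + 1), al b + ∑ b ∈ range B, al b := by
  induction B with
  | zero => simp
  | succ B ih =>
    rw [Finset.sum_range_succ, ih, Finset.sum_range_succ (fun b => al b) (B + 1),
      Finset.sum_range_succ (fun b => al b) B, al_succ]
    have h : (1 : ℝ) < 2 ^ (B + 1) := one_lt_pow₀ (by norm_num) (by omega)
    have h' : (2 : ℝ) ^ (B + 1) - 1 ≠ 0 := by
      intro h0
      linarith
    field_simp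
    ring

theorem sum_al_le (B : ℕ) : ∑ b ∈ range B, al b ≤ 1 :=
  sum_le_hasSum _ (fun b _ => al_nonneg b) hasSum_al

theorem mean_al_le (B : ℕ) : ∑ b ∈ range B, (2 : ℝ) ^ b * al b ≤ 2 := by
  rcases B with _ | B
  · simp
  · rw [mean_al]
    linarith [sum_al_le B, sum_al_le (B + 1)]

theorem exists_B2 {δ : ℝ} (hδ : 0 < δ) : ∃ B : ℕ, 3 / 2 ^ B < δ ∧
    2 - δ < ∑ b ∈ range B, (2 : ℝ) ^ b * al b := by
  have h1 : Tendsto (fun B : ℕ => (3 : ℝ) / 2 ^ (B + 1)) atTop (𝓝 0) := by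
    have h2 : Tendsto (fun B : ℕ => (3 / 2 : ℝ) * (1 / 2) ^ B) atTop (𝓝 0) := by
      have := (tendsto_pow_atTop_nhds_zero_of_lt_one (by norm_num : (0 : ℝ) ≤ 1 / 2)
        (by norm_num : (1 / 2 : ℝ) < 1)).const_mul (3 / 2 : ℝ)
      rwa [mul_zero] at this
    refine h2.congr fun B => ?_
    rw [pow_succ, one_div, inv_pow]
    field_simp
  have h3 : Tendsto (fun B : ℕ => ∑ b ∈ range (B + 1), (2 : ℝ) ^ b * al b) atTop (𝓝 (1 + 1)) := by
    have h4 := hasSum_al.tendsto_sum_nat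
    refine (((tendsto_add_atTop_iff_nat 1).2 h4).add h4).congr fun B => ?_
    rw [mean_al]
  have h5 : ∀ᶠ B : ℕ in atTop, 3 / 2 ^ (B + 1) < δ := h1.eventually (gt_mem_nhds hδ)
  have h6 : ∀ᶠ B : ℕ in atTop, 2 - δ < ∑ b ∈ range (B + 1), (2 : ℝ) ^ b * al b :=
    h3.eventually (lt_mem_nhds (by linarith))
  obtain ⟨B, hB⟩ := (h5.and h6).exists
  exact ⟨B + 1, hB⟩

/-- the law -/
def Nl {I : Type} [Fintype I] (K : I → ℕ) (ε : ℝ) : Prop :=
  (∀ b, |avg (fun i => FI b (K i)) - al b| < ε) ∧ |avg (fun i => (K i : ℝ)) - 2| < ε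

/-- the inequality of Markov -/
theorem markov {Ω : Type} [Fintype Ω] {h : Ω → ℝ} (h0 : ∀ ω, 0 ≤ h ω) {t : ℝ} (ht : 0 < t) :
    ((univ.filter fun ω => t ≤ h ω).card : ℝ) ≤ avg h / t * Fintype.card Ω := by
  rcases isEmpty_or_nonempty Ω with hE | hE
  · rw [Finset.univ_eq_empty, Finset.filter_empty, Finset.card_empty]
    have : Fintype.card Ω = 0 := Fintype.card_eq_zero
    rw [this]
    simp
  · have h1 : ((univ.filter fun ω => t ≤ h ω).card : ℝ) * t ≤ ∑ ω, h ω := by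
      rw [← nsmul_eq_mul]
      refine (Finset.card_nsmul_le_sum _ _ _ fun ω hω => (Finset.mem_filter.1 hω).2).trans ?_
      exact Finset.sum_le_sum_of_subset_of_nonneg (Finset.filter_subset _ _) fun ω _ _ => h0 ω
    have h2 : (0 : ℝ) < Fintype.card Ω := by exact_mod_cast Fintype.card_pos
    unfold avg
    rw [div_div, div_mul_eq_mul_div, le_div_iff₀ (by positivity)]
    calc _ = ((univ.filter fun ω => t ≤ h ω).card : ℝ) * t * Fintype.card Ω := by ring
      _ ≤ _ := mul_le_mul_of_nonneg_right h1 h2.le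

theorem sum_two_pow (B : ℕ) : ∑ b ∈ range B, (2 : ℝ) ^ b ≤ 2 ^ B := by
  rw [geom_sum_eq (by norm_num)]
  norm_num

section
variable {Ω I : Type} [Fintype Ω] [Fintype I] [Nonempty Ω] [Nonempty I] (K : Ω → I → ℕ)

/-- the share -/
noncomputable def sh (b : ℕ) (ω : Ω) : ℝ := avg fun i => FI b (K ω i)

/-- the mean -/
noncomputable def me (ω : Ω) : ℝ := avg fun i => (K ω i : ℝ)

theorem FI_nonneg (b z : ℕ) : 0 ≤ FI b z := by
  unfold FI
  split_ifs <;> norm_num

theorem sh_nonneg (b : ℕ) (ω : Ω) : 0 ≤ sh K b ω := avg_nonneg fun _ => FI_nonneg _ _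

theorem sh_mul_le (b : ℕ) (ω : Ω) : sh K b ω * 2 ^ b ≤ me K ω := by
  unfold sh me
  rw [← avg_mulc]
  refine avg_mono fun i => ?_
  unfold FI
  by_cases h : K ω i = 2 ^ b
  · rw [if_pos h, h]
    push_cast
    rw [one_mul]
  · rw [if_neg h, zero_mul]
    exact Nat.cast_nonneg _

theorem part_le (B : ℕ) (ω : Ω) : ∑ b ∈ range B, 2 ^ b * sh K b ω ≤ me K ω := by
  have h1 : ∀ b ∈ range B, 2 ^ b * sh K b ω = avg fun i => 2 ^ b * FI b (K ω i) := fun b _ =>
    (avg_mulcl _ _).symm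
  rw [Finset.sum_congr rfl h1, ← avg_sums]
  refine avg_mono fun i => ?_
  by_cases h : ∃ b ∈ range B, K ω i = 2 ^ b
  · obtain ⟨b, hb, hK⟩ := h
    rw [Finset.sum_eq_single_of_mem b hb]
    · unfold FI
      rw [if_pos hK, hK]
      push_cast
      rw [mul_one]
    · intro b' _ hne
      unfold FI
      rw [if_neg, mul_zero]
      intro h'
      rw [hK] at h'
      exact hne (Nat.pow_right_injective le_rfl h').symm
  · push Not at h
    rw [Finset.sum_eq_zero]
    · exact Nat.cast_nonneg _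
    · intro b hb
      unfold FI
      rw [if_neg (h b hb), mul_zero]

/-- **The abstract law of large numbers.** -/
theorem abs_law {ε ε' : ℝ} (hε : 0 < ε) (hε1 : ε ≤ 1) (hε' : 0 < ε') (hε'1 : ε' ≤ 1) :
    ∃ η : ℝ, 0 < η ∧ ∀ (Ω I : Type) [Fintype Ω] [Fintype I] [Nonempty Ω] [Nonempty I]
      (K : Ω → I → ℕ), (∀ b, avg (fun ω => (sh K b ω - al b) ^ 2) ≤ η) →
      avg (fun ω => me K ω) ≤ 2 + η →
      ((univ.filter fun ω => ¬ Nl (K ω) ε).card : ℝ) ≤ ε' * Fintype.card Ω := by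
  set δ₁ : ℝ := ε * ε' / 16 with hδ₁
  have hδ₁0 : 0 < δ₁ := by positivity
  have hδε : δ₁ ≤ ε / 16 := by
    rw [hδ₁]
    have : ε * ε' ≤ ε * 1 := mul_le_mul_of_nonneg_left hε'1 hε.le
    linarith
  obtain ⟨B, hB1, hB2⟩ := exists_B2 hδ₁0
  set δ : ℝ := δ₁ / 2 ^ B with hδ
  have hB0 : (0 : ℝ) < 2 ^ B := by positivity
  have hδ0 : 0 < δ := by positivity
  have h2B1 : (1 : ℝ) ≤ 2 ^ B := one_le_pow₀ (by norm_num)
  have hδB : 2 ^ B * δ = δ₁ := by
    rw [hδ]
    field_simp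
  have hδle : δ ≤ δ₁ := by
    rw [hδ, div_le_iff₀ hB0]
    exact le_mul_of_one_le_right hδ₁0.le h2B1
  set η : ℝ := min δ₁ (δ ^ 2 * ε' / (2 * (B + 1))) with hη
  have hη0 : 0 < η := by
    rw [hη]
    exact lt_min hδ₁0 (by positivity)
  refine ⟨η, hη0, ?_⟩
  intro Ω I _ _ _ _ K hK hm
  have hη1 : η ≤ δ₁ := min_le_left _ _
  have hη2 : η ≤ δ ^ 2 * ε' / (2 * (B + 1)) := min_le_right _ _
  have hη3 : η ≤ δ ^ 2 := by
    refine hη2.trans ?_
    rw [div_le_iff₀ (by positivity)]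
    have h1 : δ ^ 2 * ε' ≤ δ ^ 2 * 1 := mul_le_mul_of_nonneg_left hε'1 (by positivity)
    have h2 : δ ^ 2 * 1 ≤ δ ^ 2 * (2 * (B + 1)) := by
      refine mul_le_mul_of_nonneg_left ?_ (by positivity)
      have : (0 : ℝ) ≤ B := Nat.cast_nonneg _
      linarith
    linarith
  set R : Ω → ℝ := fun ω => me K ω - ∑ b ∈ range B, 2 ^ b * sh K b ω with hR
  have hR0 : ∀ ω, 0 ≤ R ω := fun ω => sub_nonneg.2 (part_le K B ω)
  -- the mean of the shares
  have hsh : ∀ b, al b - 2 * δ ≤ avg (fun ω => sh K b ω) := by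
    intro b
    have h1 : ∀ ω, al b - δ - (sh K b ω - al b) ^ 2 * (1 / δ) ≤ sh K b ω := by
      intro ω
      have h2 : 0 ≤ (sh K b ω - al b + δ / 2) ^ 2 := sq_nonneg _
      have h3 : -(sh K b ω - al b) ≤ δ + (sh K b ω - al b) ^ 2 * (1 / δ) := by
        rw [mul_one_div, ← sub_le_iff_le_add', le_div_iff₀ hδ0]
        nlinarith
      linarith
    have h4 := avg_mono h1
    rw [avg_sub, avg_const, avg_mulc] at h4
    have h5 : avg (fun ω => (sh K b ω - al b) ^ 2) * (1 / δ) ≤ δ := by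
      rw [mul_one_div, div_le_iff₀ hδ0]
      calc _ ≤ η := hK b
        _ ≤ δ ^ 2 := hη3
        _ = δ * δ := sq δ
    linarith
  have hRa : avg R ≤ ε * ε' / 4 := by
    have h1 : avg R = avg (fun ω => me K ω) - ∑ b ∈ range B, 2 ^ b * avg (fun ω => sh K b ω) := by
      rw [hR, avg_sub, avg_sums]
      congr 1
      exact Finset.sum_congr rfl fun b _ => avg_mulcl _ _
    have h2 : ∑ b ∈ range B, 2 ^ b * (al b - 2 * δ) ≤
        ∑ b ∈ range B, 2 ^ b * avg (fun ω => sh K b ω) :=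
      Finset.sum_le_sum fun b _ => mul_le_mul_of_nonneg_left (hsh b) (by positivity)
    have h3 : ∑ b ∈ range B, 2 ^ b * (al b - 2 * δ) =
        ∑ b ∈ range B, 2 ^ b * al b - (∑ b ∈ range B, (2 : ℝ) ^ b) * (2 * δ) := by
      rw [Finset.sum_mul, ← Finset.sum_sub_distrib]
      exact Finset.sum_congr rfl fun b _ => by ring
    have h4 : (∑ b ∈ range B, (2 : ℝ) ^ b) * (2 * δ) ≤ 2 ^ B * (2 * δ) :=
      mul_le_mul_of_nonneg_right (sum_two_pow B) (by positivity)
    have h5 : 2 ^ B * (2 * δ) = 2 * δ₁ := by rw [← hδB]; ring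
    rw [h1]
    have h6 : 4 * δ₁ = ε * ε' / 4 := by rw [hδ₁]; ring
    linarith
  -- the exceptional set
  have hsub : (univ.filter fun ω => ¬ Nl (K ω) ε) ⊆
      ((range B).biUnion fun b => univ.filter fun ω => δ ^ 2 ≤ (sh K b ω - al b) ^ 2) ∪
        univ.filter fun ω => ε / 2 ≤ R ω := by
    intro ω hω
    have hω' := (Finset.mem_filter.1 hω).2
    by_contra hcon
    rw [Finset.mem_union, not_or] at hcon
    obtain ⟨hc1, hc2⟩ := hcon
    have h1 : ∀ b ∈ range B, |sh K b ω - al b| < δ := by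
      intro b hb
      by_contra h'
      refine hc1 (Finset.mem_biUnion.2 ⟨b, hb, Finset.mem_filter.2 ⟨Finset.mem_univ _, ?_⟩⟩)
      rw [← sq_abs (sh K b ω - al b)]
      exact pow_le_pow_left₀ hδ0.le (not_lt.1 h') 2
    have h2 : R ω < ε / 2 := by
      by_contra h'
      exact hc2 (Finset.mem_filter.2 ⟨Finset.mem_univ _, not_lt.1 h'⟩)
    have h3 : |∑ b ∈ range B, 2 ^ b * sh K b ω - ∑ b ∈ range B, 2 ^ b * al b| ≤ δ₁ := by
      rw [← Finset.sum_sub_distrib]
      refine (Finset.abs_sum_le_sum_abs _ _).trans ?_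
      have h4 : ∀ b ∈ range B, |(2 : ℝ) ^ b * sh K b ω - 2 ^ b * al b| ≤ 2 ^ b * δ := by
        intro b hb
        rw [← mul_sub, abs_mul, abs_of_nonneg (by positivity : (0 : ℝ) ≤ 2 ^ b)]
        exact mul_le_mul_of_nonneg_left (h1 b hb).le (by positivity)
      refine (Finset.sum_le_sum h4).trans ?_
      rw [← Finset.sum_mul, ← hδB]
      exact mul_le_mul_of_nonneg_right (sum_two_pow B) hδ0.le
    obtain ⟨h4, h5⟩ := abs_le.1 h3
    have h6 := mean_al_le B
    have h7 : me K ω = R ω + ∑ b ∈ range B, 2 ^ b * sh K b ω := by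
      rw [hR]
      ring
    have h8 : |me K ω - 2| < ε := by
      rw [abs_lt]
      have := hR0 ω
      constructor <;> linarith
    apply hω'
    refine ⟨fun b => ?_, h8⟩
    by_cases hb : b < B
    · have := h1 b (Finset.mem_range.2 hb)
      exact lt_of_lt_of_le this (hδle.trans (by linarith))
    · have k2 : (2 : ℝ) ^ B ≤ 2 ^ b := pow_le_pow_right₀ (by norm_num) (not_lt.1 hb)
      have k3 := sh_mul_le K b ω
      have k4 := (abs_lt.1 h8).2
      have k5 : (0 : ℝ) < 2 ^ b := by positivity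
      have k6 : sh K b ω ≤ 3 / 2 ^ b := by
        rw [le_div_iff₀ k5]
        linarith
      have k7 : 3 / (2 : ℝ) ^ b ≤ 3 / 2 ^ B :=
        div_le_div_of_nonneg_left (by norm_num) (by positivity) k2
      have k8 := al_le b
      have k9 : 1 / (2 : ℝ) ^ b ≤ 3 / 2 ^ b := div_le_div_of_nonneg_right (by norm_num) k5.le
      have k10 := al_nonneg b
      have k11 := sh_nonneg K b ω
      show |sh K b ω - al b| < ε
      rw [abs_lt]
      constructor <;> linarith
  have hΩ : (0 : ℝ) < Fintype.card Ω := by exact_mod_cast Fintype.card_pos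
  have hc1 : (((range B).biUnion fun b => univ.filter fun ω =>
      δ ^ 2 ≤ (sh K b ω - al b) ^ 2).card : ℝ) ≤ ε' / 2 * Fintype.card Ω := by
    have h1 : (((range B).biUnion fun b => univ.filter fun ω =>
        δ ^ 2 ≤ (sh K b ω - al b) ^ 2).card : ℝ) ≤
        ∑ b ∈ range B, ((univ.filter fun ω => δ ^ 2 ≤ (sh K b ω - al b) ^ 2).card : ℝ) := by
      exact_mod_cast Finset.card_biUnion_le
    refine h1.trans ?_
    have h2 : ∀ b ∈ range B, ((univ.filter fun ω => δ ^ 2 ≤ (sh K b ω - al b) ^ 2).card : ℝ) ≤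
        ε' / (2 * (B + 1)) * Fintype.card Ω := by
      intro b _
      refine (markov (fun ω => sq_nonneg _) (by positivity)).trans ?_
      refine mul_le_mul_of_nonneg_right ?_ hΩ.le
      rw [div_le_iff₀ (by positivity)]
      refine (hK b).trans (hη2.trans (le_of_eq ?_))
      ring
    refine (Finset.sum_le_card_nsmul _ _ _ h2).trans ?_
    rw [nsmul_eq_mul, Finset.card_range, ← mul_assoc]
    refine mul_le_mul_of_nonneg_right ?_ hΩ.le
    rw [mul_div_assoc', div_le_div_iff₀ (by positivity) (by norm_num)]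
    have : (0 : ℝ) ≤ B := Nat.cast_nonneg _
    nlinarith
  have hc2 : ((univ.filter fun ω => ε / 2 ≤ R ω).card : ℝ) ≤ ε' / 2 * Fintype.card Ω := by
    refine (markov hR0 (by positivity)).trans ?_
    refine mul_le_mul_of_nonneg_right ?_ hΩ.le
    rw [div_le_iff₀ (by positivity)]
    refine hRa.trans (le_of_eq ?_)
    ring
  have hc3 : ((univ.filter fun ω => ¬ Nl (K ω) ε).card : ℝ) ≤
      (((range B).biUnion fun b => univ.filter fun ω =>
        δ ^ 2 ≤ (sh K b ω - al b) ^ 2).card : ℝ) +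
        ((univ.filter fun ω => ε / 2 ≤ R ω).card : ℝ) := by
    exact_mod_cast (Finset.card_le_card hsub).trans (Finset.card_union_le _ _)
  linarith

end

end Q155.NL
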