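import Pool.Agent.Q155.NL.LocT

/-!
# The local statement: all but few tables of symbols have the law
-/

set_option autoImplicit false
set_option linter.unusedSectionVars false

namespace Q155.NL

open Finset Filter Topology Matrix
open Q155.KT (kz kz_pos kz_pow kz_le z2_all z2_dbl)
open Q155.KG (Lm FI al lm_FI lm_id al_nonneg al_le avg_nonneg avg_sq_le)
open Q283.GM (Fam Kr rk mem_Kr nr_symm)
open Pool.Agent.Y703.CQ (nr prs)
open Pool.Agent.Y697.JQ (sd_union sd_sub)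
open Pool.Agent.Q1.PT (avg avg_equiv avg_prod avg_mono avg_const avg_add avg_sub abs_avg avg_hom)
open scoped Classical

theorem FI_al (b z : ℕ) : |FI b z - al b| ≤ 1 := by
  have h1 := al_nonneg b
  have h2 : al b ≤ 1 := by
    refine (al_le b).trans ?_
    rw [div_le_one (by positivity)]
    exact one_le_pow₀ (by norm_num)
  unfold FI
  split_ifs <;> rw [abs_le] <;> constructor <;> linarith

theorem pow_bd {s R n : ℕ} (h : 12 * s + R ≤ n) :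
    (7 / 8 : ℝ) ^ n * 4 ^ s ≤ (7 / 8) ^ R := by
  have h1 : (7 / 8 : ℝ) ^ n ≤ (7 / 8) ^ (12 * s + R) :=
    pow_le_pow_of_le_one (by norm_num) (by norm_num) h
  have h2 : (7 / 8 : ℝ) ^ (12 * s + R) * 4 ^ s = ((7 / 8) ^ 12 * 4) ^ s * (7 / 8) ^ R := by
    rw [pow_add, pow_mul, mul_pow]
    ring
  have h3 : ((7 / 8 : ℝ) ^ 12 * 4) ^ s ≤ 1 := pow_le_one₀ (by positivity) (by norm_num)
  calc (7 / 8 : ℝ) ^ n * 4 ^ s ≤ (7 / 8) ^ (12 * s + R) * 4 ^ s :=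
        mul_le_mul_of_nonneg_right h1 (by positivity)
    _ = ((7 / 8) ^ 12 * 4) ^ s * (7 / 8) ^ R := h2
    _ ≤ 1 * (7 / 8) ^ R := mul_le_mul_of_nonneg_right h3 (by positivity)
    _ = _ := one_mul _

theorem bd_all {t s R L c j : ℕ} (ht : t ≤ s) (hL : 12 * s + R ≤ L) (hc : 12 * s + R ≤ c)
    (hj : 12 * s + R ≤ j) :
    (2 : ℝ) ^ t * (3 / 4) ^ L + (3 / 4) ^ c + 2 ^ (t + 1) * (7 / 8) ^ j ≤ 10 * (7 / 8) ^ R ∧
    (2 : ℝ) ^ (t + 2) * (2 ^ t * (3 / 4) ^ L + (3 / 4) ^ c) + 2 ^ (t + 1) * (7 / 8) ^ j ≤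
      10 * (7 / 8) ^ R := by
  have h34 : ∀ n : ℕ, (3 / 4 : ℝ) ^ n ≤ (7 / 8) ^ n := fun n =>
    pow_le_pow_left₀ (by norm_num) (by norm_num) n
  have h2t : (2 : ℝ) ^ t ≤ 2 ^ s := pow_le_pow_right₀ (by norm_num) ht
  have h24 : (2 : ℝ) ^ s * 2 ^ s = 4 ^ s := by rw [← mul_pow]; norm_num
  have h1s : (1 : ℝ) ≤ 2 ^ s := one_le_pow₀ (by norm_num)
  have h2s : (2 : ℝ) ^ s ≤ 4 ^ s := pow_le_pow_left₀ (by norm_num) (by norm_num) s
  have h0t : (0 : ℝ) < 2 ^ t := by positivity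
  have h14 : (1 : ℝ) ≤ 4 ^ s := one_le_pow₀ (by norm_num)
  have htt : (2 : ℝ) ^ t * 2 ^ t ≤ 4 ^ s := by
    rw [← h24]
    exact mul_le_mul h2t h2t h0t.le (by positivity)
  have kL := pow_bd hL
  have kc := pow_bd hc
  have kj := pow_bd hj
  have aL : (3 / 4 : ℝ) ^ L * 4 ^ s ≤ (7 / 8) ^ R :=
    (mul_le_mul_of_nonneg_right (h34 L) (by positivity)).trans kL
  have ac : (3 / 4 : ℝ) ^ c * 4 ^ s ≤ (7 / 8) ^ R :=
    (mul_le_mul_of_nonneg_right (h34 c) (by positivity)).trans kc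
  have pL : (0 : ℝ) ≤ (3 / 4) ^ L := by positivity
  have pc : (0 : ℝ) ≤ (3 / 4) ^ c := by positivity
  have pj : (0 : ℝ) ≤ (7 / 8) ^ j := by positivity
  have pR : (0 : ℝ) ≤ (7 / 8) ^ R := by positivity
  have e1 : (2 : ℝ) ^ (t + 1) = 2 * 2 ^ t := by ring
  have e2 : (2 : ℝ) ^ (t + 2) = 4 * 2 ^ t := by ring
  have b1 : (2 : ℝ) ^ t * (3 / 4) ^ L ≤ (7 / 8) ^ R := by
    refine le_trans ?_ aL
    rw [mul_comm]
    exact mul_le_mul_of_nonneg_left (h2t.trans h2s) pL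
  have b2 : (3 / 4 : ℝ) ^ c ≤ (7 / 8) ^ R := le_trans (le_mul_of_one_le_right pc h14) ac
  have b3 : (2 : ℝ) ^ (t + 1) * (7 / 8) ^ j ≤ 2 * (7 / 8) ^ R := by
    rw [e1]
    have : (2 : ℝ) ^ t * (7 / 8) ^ j ≤ (7 / 8) ^ R := by
      refine le_trans ?_ kj
      rw [mul_comm]
      exact mul_le_mul_of_nonneg_left (h2t.trans h2s) pj
    linarith
  have b4 : (2 : ℝ) ^ (t + 2) * (2 ^ t * (3 / 4) ^ L) ≤ 4 * (7 / 8) ^ R := by
    rw [e2]
    have : (2 : ℝ) ^ t * 2 ^ t * (3 / 4) ^ L ≤ (7 / 8) ^ R := by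
      refine le_trans ?_ aL
      rw [mul_comm]
      exact mul_le_mul_of_nonneg_left htt pL
    calc _ = 4 * ((2 : ℝ) ^ t * 2 ^ t * (3 / 4) ^ L) := by ring
      _ ≤ _ := mul_le_mul_of_nonneg_left this (by norm_num)
  have b5 : (2 : ℝ) ^ (t + 2) * (3 / 4) ^ c ≤ 4 * (7 / 8) ^ R := by
    rw [e2]
    have : (2 : ℝ) ^ t * (3 / 4) ^ c ≤ (7 / 8) ^ R := by
      refine le_trans ?_ ac
      rw [mul_comm]
      exact mul_le_mul_of_nonneg_left (h2t.trans h2s) pc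
    calc _ = 4 * ((2 : ℝ) ^ t * (3 / 4) ^ c) := by ring
      _ ≤ _ := mul_le_mul_of_nonneg_left this (by norm_num)
  constructor
  · linarith
  · rw [mul_add]
    linarith

section
variable {ι : Type} [Fintype ι] {Φ : Fam} {f : ℕ → ZMod 2} {U₀ W S₀ : Finset ℕ}
  {J1 : Finset ι} {q : ι → ℕ}

/-- the second moment of the shares over the matrices -/
theorem sec_x (hU : U₀ ⊆ W) (ht : Tu Φ J1 (S₀ ∪ W) q) {R : ℕ}
    (hR : Rg Φ 12 R W S₀ (univ.image q)) (b : ℕ) :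
    aX (fun x : ι → ι → ZMod 2 =>
      (avg (fun w : ↥S₀.powerset × Finset ι => FI b (Kt Φ f U₀ S₀ J1 q x w)) - al b) ^ 2) ≤
      10 * (7 / 8) ^ R := by
  have hne : Nonempty ↥S₀.powerset := ⟨⟨∅, Finset.empty_mem_powerset S₀⟩⟩
  have h1 : ∀ x : ι → ι → ZMod 2,
      (avg (fun w : ↥S₀.powerset × Finset ι => FI b (Kt Φ f U₀ S₀ J1 q x w)) - al b) ^ 2 ≤
      avg fun d : ↥S₀.powerset => avg (fun U : Finset ι =>
        FI b (Kt Φ f U₀ S₀ J1 q x (d, U)) - al b) ^ 2 := by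
    intro x
    have h2 : avg (fun w : ↥S₀.powerset × Finset ι => FI b (Kt Φ f U₀ S₀ J1 q x w)) - al b =
        avg fun d : ↥S₀.powerset => avg (fun U : Finset ι =>
          FI b (Kt Φ f U₀ S₀ J1 q x (d, U)) - al b) := by
      rw [avg_prod]
      simp_rw [avg_sub, avg_const]
    rw [h2]
    exact avg_sq_le _
  unfold aX
  refine (avg_mono h1).trans ?_
  rw [avg_swap]
  have h3 : ∀ d : ↥S₀.powerset, avg (fun x : ι → ι → ZMod 2 => avg (fun U : Finset ι =>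
      FI b (Kt Φ f U₀ S₀ J1 q x (d, U)) - al b) ^ 2) ≤ 10 * (7 / 8) ^ R := by
    intro d
    have hT : symmDiff (d : Finset ℕ) U₀ ⊆ S₀ ∪ W :=
      (sd_sub hU).trans (Finset.union_subset_union_left (Finset.mem_powerset.1 d.2))
    obtain ⟨r1, r2, r3⟩ := hR
    have k1 := second (e := ee f (symmDiff (d : Finset ℕ) U₀) q) (m0_symm f)
      (reg_L ht r1 hT) (lm_FI b) (FI_al b)
    exact k1.trans (bd_all (card_Ac.trans (Finset.card_le_card hT)) le_rfl (reg_Jc ht r3)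
      (reg_J ht r2)).1
  refine (avg_mono h3).trans (le_of_eq ?_)
  rw [avg_const]

/-- the mean over the matrices -/
theorem fst_x (hU : U₀ ⊆ W) (ht : Tu Φ J1 (S₀ ∪ W) q) {R : ℕ}
    (hR : Rg Φ 12 R W S₀ (univ.image q)) :
    aX (fun x : ι → ι → ZMod 2 =>
      avg (fun w : ↥S₀.powerset × Finset ι => (Kt Φ f U₀ S₀ J1 q x w : ℝ))) ≤
      2 + 10 * (7 / 8) ^ R := by
  have hne : Nonempty ↥S₀.powerset := ⟨⟨∅, Finset.empty_mem_powerset S₀⟩⟩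
  have h0 : ∀ x : ι → ι → ZMod 2,
      avg (fun w : ↥S₀.powerset × Finset ι => (Kt Φ f U₀ S₀ J1 q x w : ℝ)) =
      avg fun d : ↥S₀.powerset => avg (fun U : Finset ι => (Kt Φ f U₀ S₀ J1 q x (d, U) : ℝ)) :=
    fun x => avg_prod _
  simp_rw [h0]
  unfold aX
  rw [avg_swap]
  have h3 : ∀ d : ↥S₀.powerset, avg (fun x : ι → ι → ZMod 2 => avg (fun U : Finset ι =>
      (Kt Φ f U₀ S₀ J1 q x (d, U) : ℝ))) ≤ 2 + 10 * (7 / 8) ^ R := by
    intro d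
    have hT : symmDiff (d : Finset ℕ) U₀ ⊆ S₀ ∪ W :=
      (sd_sub hU).trans (Finset.union_subset_union_left (Finset.mem_powerset.1 d.2))
    obtain ⟨r1, r2, r3⟩ := hR
    have k1 := first (e := ee f (symmDiff (d : Finset ℕ) U₀) q) (m0_symm f)
      (reg_L ht r1 hT) lm_id
    have k2 := (bd_all ((card_Ac (Φ := Φ)).trans (Finset.card_le_card hT)) le_rfl (reg_Jc ht r3)
      (reg_J ht r2)).2
    exact k1.trans (by linarith)
  refine (avg_mono h3).trans (le_of_eq ?_)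
  rw [avg_const]

end

/-- **The local statement.** -/
theorem loc (Φ : Fam) (f : ℕ → ZMod 2) {U₀ W : Finset ℕ} (hU : U₀ ⊆ W) {ε ε' : ℝ} (hε : 0 < ε)
    (hε1 : ε ≤ 1) (hε' : 0 < ε') (hε'1 : ε' ≤ 1) :
    ∃ R : ℕ, Loc Φ f (Rg Φ 12 R W) (NT Φ f U₀ ε) W ε' := by
  obtain ⟨η, hη, h⟩ := abs_law hε hε1 hε' hε'1
  have h1 : Tendsto (fun R : ℕ => (10 : ℝ) * (7 / 8) ^ R) atTop (𝓝 0) := by
    have := (tendsto_pow_atTop_nhds_zero_of_lt_one (by norm_num : (0 : ℝ) ≤ 7 / 8)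
      (by norm_num : (7 / 8 : ℝ) < 1)).const_mul (10 : ℝ)
    rwa [mul_zero] at this
  obtain ⟨R, hR⟩ := (h1.eventually (gt_mem_nhds hη)).exists
  refine ⟨R, ?_⟩
  intro ι _ _ J1 S₀ q hS ht hN
  refine ⟨fun α => Nl (Kt Φ f U₀ S₀ J1 q (xt α)) ε, ?_, ?_⟩
  · have hne : Nonempty ↥S₀.powerset := ⟨⟨∅, Finset.empty_mem_powerset S₀⟩⟩
    have h4 : ∀ b, avg (fun α : prs J1 → ZMod 2 =>
        (sh (fun α : prs J1 → ZMod 2 => Kt Φ f U₀ S₀ J1 q (xt α)) b α - al b) ^ 2) ≤ η := by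
      intro b
      refine le_trans (le_of_eq ?_) ((sec_x (f := f) hU ht hN b).trans hR.le)
      exact avg_tab (fun K : ↥S₀.powerset × Finset ι → ℕ => (avg (fun w => FI b (K w)) - al b) ^ 2)
    have h5 : avg (fun α : prs J1 → ZMod 2 =>
        me (fun α : prs J1 → ZMod 2 => Kt Φ f U₀ S₀ J1 q (xt α)) α) ≤ 2 + η := by
      refine le_trans (le_of_eq ?_) ((fst_x (f := f) hU ht hN).trans (by linarith))
      exact avg_tab (fun K : ↥S₀.powerset × Finset ι → ℕ => avg (fun w => (K w : ℝ)))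
    have h2 := h (prs J1 → ZMod 2) (↥S₀.powerset × Finset ι)
      (fun α => Kt Φ f U₀ S₀ J1 q (xt α)) h4 h5
    have h3 : Fintype.card (prs J1 → ZMod 2) = 2 ^ (prs J1).card := by
      rw [Fintype.card_fun, ZMod.card, Fintype.card_coe]
    rw [h3] at h2
    push_cast at h2
    exact h2
  · intro p htp hl hQ
    rw [← Kt_lab hU hl] at hQ
    refine (KS_eq hU htp (fun i hi l => ?_) ε).1 hQ
    refine xt_add (fun i l => nr (p i) (p l)) (fun i hi l hl => ?_) (fun i => ?_) hi l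
    · have hA := ((htp.2 i).2.2).1 hi
      have hB := ((htp.2 l).2.2).1 hl
      exact nr_symm (Φ.hA _ hA).1 (Φ.hA _ hA).2 (Φ.hA _ hB).1 (Fam.ne_two (Or.inl hB))
    · exact Pool.Agent.Y657.CQ.nr_self _

end Q155.NL
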