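import Pool.Agent.Q155.NL.Cmb

/-!
# The variance of the shares and the mean size of the kernels
-/

set_option autoImplicit false
set_option linter.unusedSectionVars false

namespace Q155.NL

open Finset Matrix
open Q155.KT (kz kz_pos kz_pow kz_le)
open Q155.KG (Lm FI al lm_FI)
open Pool.Agent.Q1.PT (avg avg_equiv avg_prod avg_mono avg_const avg_add avg_sub abs_avg avg_hom)
open scoped Classical

section
variable {τ ι : Type} [Fintype τ] [Fintype ι]
variable {M : Matrix τ τ (ZMod 2)} {v : ι → τ → ZMod 2} {e : ι → ZMod 2} {J1 : Finset ι}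

/-- the matrix of the subset `U` -/
noncomputable def NU (M : Matrix τ τ (ZMod 2)) (v : ι → τ → ZMod 2) (e : ι → ZMod 2)
    (J1 U : Finset ι) (x : ι → ι → ZMod 2) : Matrix (τ ⊕ ↥(J1 ∩ U)) (τ ⊕ ↥(J1 ∩ U)) (ZMod 2) :=
  cm (M + Matrix.diagonal fun r => ∑ i ∈ U, v i r) v e (J1 ∩ U) U (x, 0)

theorem NU_11 (U : Finset ι) (x : ι → ι → ZMod 2) (r r' : τ) :
    NU M v e J1 U x (Sum.inl r) (Sum.inl r') = M r r' + if r = r' then ∑ i ∈ U, v i r else 0 := by
  unfold NU cm
  rw [Matrix.fromBlocks_apply₁₁, Matrix.add_apply, Matrix.diagonal_apply]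

theorem NU_12 (U : Finset ι) (x : ι → ι → ZMod 2) (r : τ) (i : ↥(J1 ∩ U)) :
    NU M v e J1 U x (Sum.inl r) (Sum.inr i) = v i r := rfl

theorem NU_21 (U : Finset ι) (x : ι → ι → ZMod 2) (r : τ) (i : ↥(J1 ∩ U)) :
    NU M v e J1 U x (Sum.inr i) (Sum.inl r) = v i r := rfl

theorem NU_22 (U : Finset ι) (x : ι → ι → ZMod 2) (i j : ↥(J1 ∩ U)) :
    NU M v e J1 U x (Sum.inr i) (Sum.inr j) =
      if i = j then e i + ∑ l ∈ U, (x i l + x l i) else x i j + x j i := by
  unfold NU cm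
  rw [Matrix.fromBlocks_apply₂₂, Matrix.of_apply]
  by_cases h : i = j
  · rw [if_pos h, if_pos h]
    show e i + 0 + ∑ l ∈ U, (x i l + x l i) = _
    rw [add_zero]
  · rw [if_neg h, if_neg h]

/-- the size of the kernel -/
noncomputable def kU (M : Matrix τ τ (ZMod 2)) (v : ι → τ → ZMod 2) (e : ι → ZMod 2)
    (J1 U : Finset ι) (x : ι → ι → ZMod 2) : ℕ := kz (NU M v e J1 U x)

theorem sym_add (hM : M.IsSymm) (U : Finset ι) :
    (M + Matrix.diagonal fun r => ∑ i ∈ U, v i r).IsSymm :=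
  Matrix.IsSymm.add hM (Matrix.isSymm_diagonal _)

/-- the matrix depends on the rows of `U` only -/
theorem kU_inr {U B : Finset ι} (h : Disjoint B U) (g : ℕ → ℝ) :
    Inr B (fun x => g (kU M v e J1 U x)) := by
  intro x x' hx
  have hB : ∀ i ∈ U, i ∉ B := fun i hi h' => Finset.disjoint_left.1 h h' hi
  have h1 : NU M v e J1 U x = NU M v e J1 U x' := by
    unfold NU cm
    congr 1
    ext i j
    rw [Matrix.of_apply, Matrix.of_apply]
    have hi := hB i (Finset.mem_inter.1 i.2).2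
    have hj := hB j (Finset.mem_inter.1 j.2).2
    by_cases hij : i = j
    · rw [if_pos hij, if_pos hij]
      have h2 : ∀ l ∈ U, x i l + x l i = x' i l + x' l i := fun l hl => by
        rw [hx i l hi, hx l i (hB l hl)]
      show e i + 0 + ∑ l ∈ U, (x i l + x l i) = e i + 0 + ∑ l ∈ U, (x' i l + x' l i)
      rw [Finset.sum_congr rfl h2]
    · rw [if_neg hij, if_neg hij]
      show x i j + x j i = x' i j + x' j i
      rw [hx i j hi, hx j i hj]
  show g (kz (NU M v e J1 U x)) = g (kz (NU M v e J1 U x'))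
  rw [h1]

/-- **A good pair.** -/
theorem good_le (hM : M.IsSymm) {U U' : Finset ι} (h : GP v J1 U U') {F : ℕ → ℝ} {ℓ : ℝ}
    (hF : Lm F ℓ) {G : (ι → ι → ZMod 2) → ℝ} (hG : ∀ B : Finset ι, Disjoint B U' → Inr B G)
    (hG1 : ∀ x, |G x| ≤ 1) :
    |avg (fun x => (F (kU M v e J1 U x) - ℓ) * G x)| ≤
      2 ^ (Fintype.card τ + 1) * (1 / 2) ^ (J1 ∩ (U \ U')).card := by
  obtain ⟨hS, b, hb⟩ := h
  obtain ⟨hb1, hb2⟩ := Finset.mem_inter.1 hb
  obtain ⟨hbU, hbU'⟩ := Finset.mem_sdiff.1 hb2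
  have hbJ : b ∉ J1 := Finset.mem_compl.1 hb1
  set V := J1 ∩ (U ∩ U') with hV
  set B := J1 ∩ (U \ U') with hB
  have hVB : V ∪ B = J1 ∩ U := by
    rw [hV, hB, ← Finset.inter_union_distrib_left]
    congr 1
    ext i
    simp only [Finset.mem_union, Finset.mem_inter, Finset.mem_sdiff]
    tauto
  have hd : Disjoint B V := by
    rw [Finset.disjoint_left]
    intro i hi hi'
    exact (Finset.mem_sdiff.1 (Finset.mem_inter.1 hi).2).2
      (Finset.mem_inter.1 (Finset.mem_inter.1 hi').2).2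
  have hBU : Disjoint (insert b B) U' := by
    rw [Finset.disjoint_left]
    intro i hi hi'
    rcases Finset.mem_insert.1 hi with rfl | h2
    · exact hbU' hi'
    · exact (Finset.mem_sdiff.1 (Finset.mem_inter.1 h2).2).2 hi'
  have h1 := pair_le (M := M + Matrix.diagonal fun r => ∑ i ∈ U, v i r) (v := v) (e := e)
    (sym_add hM U) hd
    (hVB.symm ▸ Finset.inter_subset_right) hbU (fun h' => hbJ (Finset.mem_inter.1 (hVB ▸ h')).1)
    hS hF (hG _ hBU) hG1
  rw [hVB] at h1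
  rw [one_div, inv_pow, ← div_eq_mul_inv]
  exact h1

/-- **The second moment.** -/
theorem second (hM : M.IsSymm) {L : ℕ} (hL : ∀ w : τ → ZMod 2, w ≠ 0 → L ≤ (Aw v J1 w).card)
    {F : ℕ → ℝ} {ℓ : ℝ} (hF : Lm F ℓ) (hF1 : ∀ z, |F z - ℓ| ≤ 1) :
    avg (fun x => avg (fun U : Finset ι => F (kU M v e J1 U x) - ℓ) ^ 2) ≤
      2 ^ Fintype.card τ * (3 / 4) ^ L + (3 / 4) ^ (J1ᶜ).card +
        2 ^ (Fintype.card τ + 1) * (7 / 8) ^ J1.card := by
  simp_rw [avg_sq]
  rw [avg_swap]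
  have h1 : ∀ U U' : Finset ι, avg (fun x => (F (kU M v e J1 U x) - ℓ) *
      (F (kU M v e J1 U' x) - ℓ)) ≤ bp v J1 U U' +
        2 ^ (Fintype.card τ + 1) * (1 / 2) ^ (J1 ∩ (U \ U')).card := by
    intro U U'
    by_cases h : GP v J1 U U'
    · have h2 := good_le (e := e) hM h hF (G := fun x => F (kU M v e J1 U' x) - ℓ)
        (fun B hB => kU_inr hB fun z => F z - ℓ) (fun x => hF1 _)
      linarith [le_abs_self (avg (fun x => (F (kU M v e J1 U x) - ℓ) *
        (F (kU M v e J1 U' x) - ℓ))), bp_nonneg v J1 U U']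
    · have h2 := bp_bad h
      have h3 : avg (fun x => (F (kU M v e J1 U x) - ℓ) * (F (kU M v e J1 U' x) - ℓ)) ≤ 1 := by
        refine (avg_mono fun x => ?_).trans (le_of_eq (avg_const 1))
        refine (le_abs_self _).trans ?_
        rw [abs_mul]
        calc _ ≤ (1 : ℝ) * 1 := mul_le_mul (hF1 _) (hF1 _) (abs_nonneg _) zero_le_one
          _ = 1 := one_mul 1
      have h4 : (0 : ℝ) ≤ 2 ^ (Fintype.card τ + 1) * (1 / 2) ^ (J1 ∩ (U \ U')).card := by
        positivity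
      linarith
  have h2 : avg (fun U : Finset ι => avg fun x => avg fun U' : Finset ι =>
      (F (kU M v e J1 U x) - ℓ) * (F (kU M v e J1 U' x) - ℓ)) ≤
      avg (fun U : Finset ι => avg fun U' : Finset ι => (bp v J1 U U' +
        2 ^ (Fintype.card τ + 1) * (1 / 2) ^ (J1 ∩ (U \ U')).card)) := by
    refine avg_mono fun U => ?_
    rw [avg_swap]
    exact avg_mono fun U' => h1 U U'
  refine h2.trans ?_
  simp_rw [avg_add, avg_mulcl]
  rw [avg_diff]
  have h3 : ((3 + 1 / 2) / 4 : ℝ) = 7 / 8 := by norm_num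
  rw [h3]
  linarith [avg_bp (v := v) hL]

/-- **The first moment of the mean.** -/
theorem first (hM : M.IsSymm) {L : ℕ} (hL : ∀ w : τ → ZMod 2, w ≠ 0 → L ≤ (Aw v J1 w).card)
    (hid : Lm (fun z => (z : ℝ)) 2) :
    avg (fun x => avg (fun U : Finset ι => (kU M v e J1 U x : ℝ))) ≤ 2 +
      (2 ^ (Fintype.card τ + 2) * (2 ^ Fintype.card τ * (3 / 4) ^ L + (3 / 4) ^ (J1ᶜ).card) +
        2 ^ (Fintype.card τ + 1) * (7 / 8) ^ J1.card) := by
  rw [avg_swap]
  have h0 : avg (fun U : Finset ι => avg fun x => (kU M v e J1 U x : ℝ)) =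
      avg (fun U : Finset ι => avg fun U' : Finset ι => avg fun x => (kU M v e J1 U x : ℝ)) := by
    congr 1
    funext U
    rw [avg_const]
  rw [h0]
  have h1 : ∀ U U' : Finset ι, avg (fun x => (kU M v e J1 U x : ℝ)) ≤ 2 +
      (2 ^ (Fintype.card τ + 2) * bp v J1 U U' +
        2 ^ (Fintype.card τ + 1) * (1 / 2) ^ (J1 ∩ (U \ U')).card) := by
    intro U U'
    have h5 : (0 : ℝ) ≤ 2 ^ (Fintype.card τ + 2) * bp v J1 U U' :=
      mul_nonneg (by positivity) (bp_nonneg v J1 U U')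
    by_cases h : GP v J1 U U'
    · have h2 := good_le (e := e) hM h hid (G := fun x => 1) (fun B hB x x' _ => rfl)
        (fun x => by rw [abs_one])
      simp_rw [mul_one, avg_sub] at h2
      rw [avg_const] at h2
      linarith [le_abs_self (avg (fun x => (kU M v e J1 U x : ℝ)) - 2)]
    · have h2 := bp_bad h
      have h3 := mean_any (M := M + Matrix.diagonal fun r => ∑ i ∈ U, v i r) (v := v) (e := e)
        (sym_add hM U) (Finset.inter_subset_right : J1 ∩ U ⊆ U)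
      have h4 : (0 : ℝ) ≤ 2 ^ (Fintype.card τ + 1) * (1 / 2) ^ (J1 ∩ (U \ U')).card := by
        positivity
      have h6 : (2 : ℝ) ^ (Fintype.card τ + 2) ≤ 2 ^ (Fintype.card τ + 2) * bp v J1 U U' :=
        le_mul_of_one_le_right (by positivity) h2
      have h7 : avg (fun x => (kU M v e J1 U x : ℝ)) ≤ 2 ^ (Fintype.card τ + 2) := h3
      linarith
  refine (avg_mono fun U => avg_mono fun U' => h1 U U').trans ?_
  simp_rw [avg_add, avg_mulcl, avg_const]
  rw [avg_diff]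
  have h3 : ((3 + 1 / 2) / 4 : ℝ) = 7 / 8 := by norm_num
  rw [h3]
  have h4 := mul_le_mul_of_nonneg_left (avg_bp (v := v) hL)
    (by positivity : (0 : ℝ) ≤ 2 ^ (Fintype.card τ + 2))
  linarith

end

end Q155.NL
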