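import Pool.Agent.Q155.NL.Vr
import Pool.Agent.Q283.GM.BOX

/-!
# The kernels of the family and the matrices of the subsets
-/

set_option autoImplicit false
set_option linter.unusedSectionVars false

namespace Q155.NL

open Finset Matrix
open Q155.KT (kz kz_pos kz_pow kz_le z2_dbl)
open Q283.GM (Fam Kr rk mem_Kr nr_symm)
open Pool.Agent.Y703.CQ (nr prs)
open Pool.Agent.Y657.CQ (nr_self)
open scoped Classical

/-- the active elements of a set -/
abbrev Ac (Φ : Fam) (S : Finset ℕ) : Type := {p : ℕ // p ∈ S ∧ Φ.A p}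

noncomputable instance (Φ : Fam) (S : Finset ℕ) : Fintype (Ac Φ S) :=
  Fintype.subtype (S.filter Φ.A) (fun _ => Finset.mem_filter)

/-- the matrix of a set -/
noncomputable def mS (Φ : Fam) (f : ℕ → ZMod 2) (S : Finset ℕ) : Matrix (Ac Φ S) (Ac Φ S) (ZMod 2) :=
  Matrix.of fun p q => nr p q + if p = q then f p + ∑ r ∈ S, nr p r else 0

theorem sum_Ac {Φ : Fam} {S : Finset ℕ} (g : ℕ → ZMod 2) (hg : ∀ q ∈ S, ¬ Φ.A q → g q = 0) :
    ∑ q ∈ S, g q = ∑ q : Ac Φ S, g q := by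
  have h1 : ∑ q : Ac Φ S, g q = ∑ q ∈ S.filter Φ.A, g q :=
    Finset.sum_subtype (S.filter Φ.A) (fun _ => Finset.mem_filter) g |>.symm
  rw [h1]
  symm
  refine Finset.sum_subset (Finset.filter_subset _ _) fun q hq hq' => hg q hq fun h => hq' ?_
  exact Finset.mem_filter.2 ⟨hq, h⟩

theorem mS_mulVec {Φ : Fam} {f : ℕ → ZMod 2} {S : Finset ℕ} (w : ℕ → ZMod 2)
    (hw : ∀ p, ¬ (p ∈ S ∧ Φ.A p) → w p = 0) (p : Ac Φ S) :
    (mS Φ f S *ᵥ fun q : Ac Φ S => w q) p =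
      ∑ q ∈ S, nr p q * (w q + w p) + f p * w p := by
  have h1 : (mS Φ f S *ᵥ fun q : Ac Φ S => w q) p =
      ∑ q : Ac Φ S, (nr p q * w q + if p = q then (f p + ∑ r ∈ S, nr p r) * w q else 0) := by
    refine Finset.sum_congr rfl fun q _ => ?_
    show (nr p q + if p = q then f p + ∑ r ∈ S, nr p r else 0) * w q = _
    rw [add_mul, ite_mul, zero_mul]
  rw [h1, Finset.sum_add_distrib, Finset.sum_ite_eq, if_pos (Finset.mem_univ p)]
  have h2 : ∑ q ∈ S, nr p q * w q = ∑ q : Ac Φ S, nr p q * w q :=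
    sum_Ac (fun q => nr p q * w q) fun q _ ha => by
      show nr p q * w q = 0
      rw [hw q fun h => ha h.2, mul_zero]
  have h3 : ∑ q ∈ S, nr p q * (w q + w p) = ∑ q ∈ S, nr p q * w q + (∑ q ∈ S, nr p q) * w p := by
    rw [Finset.sum_mul, ← Finset.sum_add_distrib]
    exact Finset.sum_congr rfl fun q _ => by ring
  rw [h3, h2]
  ring

/-- **The kernel of the family is the kernel of the matrix.** -/
theorem kz_mS (Φ : Fam) (f : ℕ → ZMod 2) (S : Finset ℕ) : kz (mS Φ f S) = 2 ^ rk Φ f S := by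
  have e : {w : Ac Φ S → ZMod 2 // mS Φ f S *ᵥ w = 0} ≃ Kr Φ f S :=
    { toFun := fun w => ⟨fun n => if h : n ∈ S ∧ Φ.A n then w.1 ⟨n, h⟩ else 0, by
          have h0 : ∀ p, ¬ (p ∈ S ∧ Φ.A p) →
              (fun n => if h : n ∈ S ∧ Φ.A n then w.1 ⟨n, h⟩ else 0 : ℕ → ZMod 2) p = 0 :=
            fun p hp => dif_neg hp
          rw [mem_Kr]
          refine ⟨h0, fun p hp ha => ?_⟩
          have h1 := mS_mulVec (f := f) _ h0 ⟨p, hp, ha⟩
          rw [← h1]
          have h2 : (fun q : Ac Φ S => (fun n => if h : n ∈ S ∧ Φ.A n then w.1 ⟨n, h⟩ else 0 :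
              ℕ → ZMod 2) q) = w.1 := by
            funext q
            exact dif_pos q.2
          rw [h2, w.2]
          rfl⟩
      invFun := fun x => ⟨fun q => x.1 q, by
          funext p
          obtain ⟨h1, h2⟩ := mem_Kr.1 x.2
          rw [mS_mulVec x.1 h1 p]
          exact h2 p p.2.1 p.2.2⟩
      left_inv := fun w => by
        refine Subtype.ext (funext fun q => ?_)
        exact dif_pos q.2
      right_inv := fun x => by
        refine Subtype.ext (funext fun n => ?_)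
        show (if h : n ∈ S ∧ Φ.A n then x.1 n else 0) = x.1 n
        by_cases h : n ∈ S ∧ Φ.A n
        · rw [dif_pos h]
        · rw [dif_neg h, (mem_Kr.1 x.2).1 n h] }
  have hfin : Finite (Kr Φ f S) := Finite.of_equiv _ e
  unfold kz rk
  rw [Nat.card_congr e, Module.natCard_eq_pow_finrank (K := ZMod 2), Nat.card_zmod]

section
variable {Φ : Fam} {ι : Type} [Fintype ι] {J1 : Finset ι} {T : Finset ℕ} {p : ι → ℕ}

/-- the small part of the matrix -/
noncomputable def m0 (Φ : Fam) (f : ℕ → ZMod 2) (T : Finset ℕ) : Matrix (Ac Φ T) (Ac Φ T) (ZMod 2) :=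
  mS Φ f T

theorem m0_symm (f : ℕ → ZMod 2) : (m0 Φ f T).IsSymm := by
  refine Matrix.IsSymm.ext fun i j => ?_
  show nr j i + (if j = i then f j + ∑ r ∈ T, nr j r else 0) =
    nr i j + (if i = j then f i + ∑ r ∈ T, nr i r else 0)
  by_cases h : i = j
  · subst h
    rfl
  · rw [if_neg h, if_neg (fun h' => h h'.symm), nr_symm (Φ.hA _ j.2.2).1 (Φ.hA _ j.2.2).2
      (Φ.hA _ i.2.2).1 (Fam.ne_two (Or.inl i.2.2))]

/-- the labels with respect to the active elements of `T` -/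
noncomputable def vv (Φ : Fam) (T : Finset ℕ) (p : ι → ℕ) : ι → Ac Φ T → ZMod 2 :=
  fun i u => nr (p i) u

/-- the diagonal -/
noncomputable def ee (f : ℕ → ZMod 2) (T : Finset ℕ) (p : ι → ℕ) : ι → ZMod 2 :=
  fun i => f (p i) + ∑ q ∈ T, nr (p i) q

/-- the indices -/
noncomputable def eqT (hp : Function.Injective p) (hd : ∀ i, p i ∉ T)
    (hJ : ∀ i, i ∈ J1 ↔ Φ.A (p i)) (U : Finset ι) :
    Ac Φ T ⊕ ↥(J1 ∩ U) ≃ Ac Φ (T ∪ U.image p) :=
  Equiv.ofBijective (Sum.elim (fun u => ⟨u.1, Finset.mem_union_left _ u.2.1, u.2.2⟩)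
    fun i => ⟨p i, Finset.mem_union_right _ (Finset.mem_image_of_mem _ (Finset.mem_inter.1 i.2).2),
      (hJ i).1 (Finset.mem_inter.1 i.2).1⟩) (by
    constructor
    · rintro (u | i) (u' | i') h
      · exact congrArg Sum.inl (Subtype.ext (congrArg (fun z : Ac Φ (T ∪ U.image p) => z.1) h))
      · have h1 : u.1 = p i' := congrArg (fun z : Ac Φ (T ∪ U.image p) => z.1) h
        exact absurd (h1 ▸ u.2.1) (hd i')
      · have h1 : p i = u'.1 := congrArg (fun z : Ac Φ (T ∪ U.image p) => z.1) h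
        exact absurd (h1.symm ▸ u'.2.1) (hd i)
      · have h1 : p i = p i' := congrArg (fun z : Ac Φ (T ∪ U.image p) => z.1) h
        exact congrArg Sum.inr (Subtype.ext (hp h1))
    · rintro ⟨n, hn, ha⟩
      rcases Finset.mem_union.1 hn with h | h
      · exact ⟨Sum.inl ⟨n, h, ha⟩, rfl⟩
      · obtain ⟨i, hi, rfl⟩ := Finset.mem_image.1 h
        exact ⟨Sum.inr ⟨i, Finset.mem_inter.2 ⟨(hJ i).2 ha, hi⟩⟩, rfl⟩)

theorem eqT_1 (hp : Function.Injective p) (hd : ∀ i, p i ∉ T)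
    (hJ : ∀ i, i ∈ J1 ↔ Φ.A (p i)) (U : Finset ι) (u : Ac Φ T) :
    ((eqT hp hd hJ U (Sum.inl u) : Ac Φ (T ∪ U.image p)) : ℕ) = u := rfl

theorem eqT_2 (hp : Function.Injective p) (hd : ∀ i, p i ∉ T)
    (hJ : ∀ i, i ∈ J1 ↔ Φ.A (p i)) (U : Finset ι) (i : ↥(J1 ∩ U)) :
    ((eqT hp hd hJ U (Sum.inr i) : Ac Φ (T ∪ U.image p)) : ℕ) = p i := rfl

theorem sum_TU' (hp : Function.Injective p) (hd : ∀ i, p i ∉ T) (U : Finset ι) (g : ℕ → ZMod 2) :
    ∑ q ∈ T ∪ U.image p, g q = ∑ q ∈ T, g q + ∑ i ∈ U, g (p i) := by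
  rw [Finset.sum_union, Finset.sum_image fun i _ j _ h => hp h]
  rw [Finset.disjoint_left]
  intro q hq hq'
  obtain ⟨i, -, rfl⟩ := Finset.mem_image.1 hq'
  exact hd i hq

/-- **The kernel for the subset `U`.** -/
theorem kU_eq (f : ℕ → ZMod 2) (hpr : ∀ i, (p i).Prime ∧ p i ≠ 2) (hp : Function.Injective p)
    (hd : ∀ i, p i ∉ T) (hJ : ∀ i, i ∈ J1 ↔ Φ.A (p i)) {X : ι → ι → ZMod 2}
    (hX : ∀ i ∈ J1, ∀ l, X i l + X l i = nr (p i) (p l)) (U : Finset ι) :
    kU (m0 Φ f T) (vv Φ T p) (ee f T p) J1 U X = 2 ^ rk Φ f (T ∪ U.image p) := by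
  rw [← kz_mS, ← kz_submatrix (mS Φ f (T ∪ U.image p)) (eqT hp hd hJ U)]
  unfold kU
  congr 1
  have hs : ∀ (i : ι) (u : Ac Φ T), nr (u : ℕ) (p i) = nr (p i) u := fun i u =>
    nr_symm (Φ.hA _ u.2.2).1 (Φ.hA _ u.2.2).2 (hpr i).1 (hpr i).2
  ext a b
  rw [Matrix.submatrix_apply]
  show _ = nr ((eqT hp hd hJ U a : Ac Φ (T ∪ U.image p)) : ℕ)
    ((eqT hp hd hJ U b : Ac Φ (T ∪ U.image p)) : ℕ) +
      if eqT hp hd hJ U a = eqT hp hd hJ U b then
        f ((eqT hp hd hJ U a : Ac Φ (T ∪ U.image p)) : ℕ) +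
          ∑ r ∈ T ∪ U.image p, nr ((eqT hp hd hJ U a : Ac Φ (T ∪ U.image p)) : ℕ) r else 0
  rw [sum_TU' hp hd]
  rcases a with u | i <;> rcases b with u' | i'
  · rw [NU_11, eqT_1, eqT_1]
    show (nr u u' + (if u = u' then f u + ∑ r ∈ T, nr u r else 0)) + _ = _
    by_cases h : u = u'
    · subst h
      rw [if_pos rfl, if_pos rfl, if_pos rfl]
      show (nr u u + (f u + ∑ r ∈ T, nr u r)) + ∑ i ∈ U, nr (p i) u = _
      rw [Finset.sum_congr rfl fun i _ => (hs i u).symm]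
      ring
    · rw [if_neg h, if_neg h, if_neg (fun h' => h (Sum.inl_injective
        ((eqT hp hd hJ U).injective h')))]
      ring
  · rw [NU_12, eqT_1, eqT_2, if_neg (fun h' =>
      Sum.inl_ne_inr ((eqT hp hd hJ U).injective h')), add_zero, hs]
    rfl
  · rw [NU_21, eqT_1, eqT_2, if_neg (fun h' =>
      Sum.inr_ne_inl ((eqT hp hd hJ U).injective h')), add_zero]
    rfl
  · rw [NU_22, eqT_2, eqT_2]
    have hi : (i : ι) ∈ J1 := (Finset.mem_inter.1 i.2).1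
    by_cases h : i = i'
    · subst h
      rw [if_pos rfl, if_pos rfl, nr_self, Finset.sum_congr rfl fun l _ => hX i hi l]
      show (f (p i) + ∑ q ∈ T, nr (p i) q) + _ = _
      ring
    · rw [if_neg h, if_neg (fun h' => h (Sum.inr_injective
        ((eqT hp hd hJ U).injective h'))), add_zero]
      exact hX i hi i'

end

end Q155.NL
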