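import Pool.Agent.Q155.NL.Stm
import Pool.Agent.Q155.NL.Tab
import Pool.Agent.Q155.NL.Law

/-!
# The law over the subsets of a set, for given regular labels of the large primes
-/

set_option autoImplicit false
set_option linter.unusedSectionVars false

namespace Q155.NL

open Finset Filter Topology Matrix
open Q155.KT (kz kz_pos kz_pow kz_le z2_all z2_dbl)
open Q155.KG (Lm FI al lm_FI lm_id al_nonneg al_le avg_nonneg avg_sq_le)
open Q283.GM (Fam Kr rk mem_Kr nr_symm)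
open Pool.Agent.Y703.CQ (nr prs)
open Pool.Agent.Y657.CQ (nr_self)
open Pool.Agent.Y697.JQ (sd_union sd_sub)
open Pool.Agent.Q1.PT (avg avg_equiv avg_prod avg_mono avg_const avg_add avg_sub abs_avg avg_hom)
open scoped Classical

theorem avg_inst {α : Type} (i j : Fintype α) (g : α → ℝ) : @avg α i g = @avg α j g := by
  cases Subsingleton.elim i j
  rfl

/-- the mean over the matrices -/
noncomputable def aX {ι : Type} [Fintype ι] (g : (ι → ι → ZMod 2) → ℝ) : ℝ := avg g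

/-- the sizes of the kernels for the subsets of `S` -/
noncomputable def KS (Φ : Fam) (f : ℕ → ZMod 2) (U₀ S : Finset ℕ) (d : ↥S.powerset) : ℕ :=
  2 ^ rk Φ f (symmDiff (d : Finset ℕ) U₀)

/-- the law for the subsets of `S` -/
def NT (Φ : Fam) (f : ℕ → ZMod 2) (U₀ : Finset ℕ) (ε : ℝ) (S : Finset ℕ) : Prop :=
  Nl (KS Φ f U₀ S) ε

section
variable {ι : Type} [Fintype ι]

/-- the subsets of the union -/
noncomputable def eqP {S₀ : Finset ℕ} {p : ι → ℕ} (hp : Function.Injective p) (hd : ∀ i, p i ∉ S₀) :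
    ↥S₀.powerset × Finset ι ≃ ↥(S₀ ∪ univ.image p).powerset where
  toFun w := ⟨(w.1 : Finset ℕ) ∪ w.2.image p, Finset.mem_powerset.2 (Finset.union_subset_union
    (Finset.mem_powerset.1 w.1.2) (Finset.image_subset_image (Finset.subset_univ _)))⟩
  invFun d := (⟨(d : Finset ℕ) ∩ S₀, Finset.mem_powerset.2 Finset.inter_subset_right⟩,
    univ.filter fun i => p i ∈ (d : Finset ℕ))
  left_inv := by
    rintro ⟨⟨d, hd'⟩, U⟩
    have hd1 : d ⊆ S₀ := Finset.mem_powerset.1 hd'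
    refine Prod.ext (Subtype.ext ?_) ?_
    · ext x
      simp only [Finset.mem_inter, Finset.mem_union, Finset.mem_image]
      constructor
      · rintro ⟨h | ⟨i, _, rfl⟩, h2⟩
        · exact h
        · exact absurd h2 (hd i)
      · exact fun h => ⟨Or.inl h, hd1 h⟩
    · ext i
      simp only [Finset.mem_filter, Finset.mem_univ, true_and, Finset.mem_union, Finset.mem_image]
      constructor
      · rintro (h | ⟨j, hj, hji⟩)
        · exact absurd (hd1 h) (hd i)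
        · exact hp hji ▸ hj
      · exact fun h => Or.inr ⟨i, h, rfl⟩
  right_inv := by
    rintro ⟨d, hd'⟩
    have hd1 : d ⊆ S₀ ∪ univ.image p := Finset.mem_powerset.1 hd'
    refine Subtype.ext ?_
    ext x
    simp only [Finset.mem_union, Finset.mem_inter, Finset.mem_image, Finset.mem_filter,
      Finset.mem_univ, true_and]
    constructor
    · rintro (h | ⟨i, hi, rfl⟩)
      · exact h.1
      · exact hi
    · intro h
      rcases Finset.mem_union.1 (hd1 h) with h1 | h1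
      · exact Or.inl ⟨h, h1⟩
      · obtain ⟨i, -, rfl⟩ := Finset.mem_image.1 h1
        exact Or.inr ⟨i, h, rfl⟩

theorem nl_congr {I J : Type} [Fintype I] [Fintype J] (E : I ≃ J) {K : J → ℕ} {K' : I → ℕ}
    (h : ∀ i, K (E i) = K' i) (ε : ℝ) : Nl K' ε ↔ Nl K ε := by
  have h1 : ∀ g : ℕ → ℝ, avg (fun i => g (K' i)) = avg (fun j => g (K j)) := by
    intro g
    rw [← avg_equiv E (fun j => g (K j))]
    simp_rw [h]
  unfold Nl
  simp_rw [h1 (FI _), h1 (fun z => (z : ℝ))]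

/-- the table of the sizes of the kernels -/
noncomputable def Kt (Φ : Fam) (f : ℕ → ZMod 2) (U₀ S₀ : Finset ℕ) (J1 : Finset ι) (q : ι → ℕ)
    (X : ι → ι → ZMod 2) (w : ↥S₀.powerset × Finset ι) : ℕ :=
  kU (m0 Φ f (symmDiff (w.1 : Finset ℕ) U₀)) (vv Φ (symmDiff (w.1 : Finset ℕ) U₀) q)
    (ee f (symmDiff (w.1 : Finset ℕ) U₀) q) J1 w.2 X

variable {Φ : Fam} {f : ℕ → ZMod 2} {U₀ W S₀ : Finset ℕ} {J1 : Finset ι} {p q : ι → ℕ}

theorem Kt_pow (X : ι → ι → ZMod 2) (w : ↥S₀.powerset × Finset ι) :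
    ∃ c, Kt Φ f U₀ S₀ J1 q X w = 2 ^ c := kz_pow _

theorem Kt_congr {X X' : ι → ι → ZMod 2}
    (h : ∀ i ∈ J1, ∀ l, X i l + X l i = X' i l + X' l i) :
    Kt Φ f U₀ S₀ J1 q X = Kt Φ f U₀ S₀ J1 q X' := by
  funext w
  unfold Kt kU
  congr 1
  ext a b
  rcases a with u | i <;> rcases b with u' | i'
  · rw [NU_11, NU_11]
  · rw [NU_12, NU_12]
  · rw [NU_21, NU_21]
  · rw [NU_22, NU_22]
    have hi : (i : ι) ∈ J1 := (Finset.mem_inter.1 i.2).1
    rw [h i hi i', Finset.sum_congr rfl fun l _ => h i hi l]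

/-- **The kernels of the divisors.** -/
theorem KS_eq (hU : U₀ ⊆ W) (ht : Tu Φ J1 (S₀ ∪ W) p) {X : ι → ι → ZMod 2}
    (hX : ∀ i ∈ J1, ∀ l, X i l + X l i = nr (p i) (p l)) (ε : ℝ) :
    Nl (Kt Φ f U₀ S₀ J1 p X) ε ↔ NT Φ f U₀ ε (S₀ ∪ univ.image p) := by
  obtain ⟨hp, h⟩ := ht
  have hd : ∀ i, p i ∉ S₀ := fun i hi => (h i).2.1 (Finset.mem_union_left _ hi)
  refine nl_congr (eqP hp hd) (fun w => ?_) ε
  unfold KS Kt
  have hT : symmDiff (w.1 : Finset ℕ) U₀ ⊆ S₀ ∪ W :=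
    (sd_sub hU).trans (Finset.union_subset_union_left (Finset.mem_powerset.1 w.1.2))
  rw [kU_eq f (fun i => ⟨(h i).1.prime, Fam.ne_two (h i).1⟩) hp (fun i hi => (h i).2.1 (hT hi))
    (fun i => (h i).2.2) hX]
  congr 2
  show symmDiff ((w.1 : Finset ℕ) ∪ w.2.image p) U₀ = _
  refine sd_union hU fun x hx hx' => ?_
  obtain ⟨i, -, rfl⟩ := Finset.mem_image.1 hx
  exact (h i).2.1 (Finset.union_subset_union_left (Finset.mem_powerset.1 w.1.2) hx')

/-- the table depends on the labels only -/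
theorem Kt_lab (hU : U₀ ⊆ W) (hl : ∀ i, lb f (S₀ ∪ W) (p i) = lb f (S₀ ∪ W) (q i))
    (X : ι → ι → ZMod 2) : Kt Φ f U₀ S₀ J1 p X = Kt Φ f U₀ S₀ J1 q X := by
  funext w
  have hT : symmDiff (w.1 : Finset ℕ) U₀ ⊆ S₀ ∪ W :=
    (sd_sub hU).trans (Finset.union_subset_union_left (Finset.mem_powerset.1 w.1.2))
  have h1 : ∀ i, ∀ u ∈ S₀ ∪ W, nr (p i) u = nr (q i) u := fun i u hu =>
    congrFun (congrArg (fun z => z.2.1) (hl i)) (⟨u, hu⟩ : ↥(S₀ ∪ W))
  have h2 : ∀ i, f (p i) = f (q i) := fun i => congrArg (fun z => z.2.2) (hl i)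
  have h3 : vv Φ (symmDiff (w.1 : Finset ℕ) U₀) p = vv Φ (symmDiff (w.1 : Finset ℕ) U₀) q := by
    funext i u
    exact h1 i u (hT u.2.1)
  have h4 : ee f (symmDiff (w.1 : Finset ℕ) U₀) p = ee f (symmDiff (w.1 : Finset ℕ) U₀) q := by
    funext i
    unfold ee
    rw [h2, Finset.sum_congr rfl fun u hu => h1 i u (hT hu)]
  unfold Kt
  rw [h3, h4]

end

section
variable {ι : Type} [Fintype ι] [LinearOrder ι] {Φ : Fam} {f : ℕ → ZMod 2} {U₀ W S₀ : Finset ℕ}
  {J1 : Finset ι} {p q : ι → ℕ}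

theorem mem_prs {e : ι × ι} : e ∈ prs J1 ↔ e.1 ∈ J1 ∧ e.2 ≠ e.1 ∧ (e.2 ∈ J1 → e.1 < e.2) := by
  unfold prs
  rw [Finset.mem_filter]
  exact and_iff_right (Finset.mem_univ _)

/-- the extension of a table of symbols -/
noncomputable def xt (α : prs J1 → ZMod 2) : ι → ι → ZMod 2 :=
  fun i l => if h : (i, l) ∈ prs J1 then α ⟨(i, l), h⟩ else 0

theorem xt_add (g : ι → ι → ZMod 2) (hg : ∀ i ∈ J1, ∀ l ∈ J1, g i l = g l i) (hg0 : ∀ i, g i i = 0)
    {i : ι} (hi : i ∈ J1) (l : ι) :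
    xt (fun e : prs J1 => g e.1.1 e.1.2) i l + xt (fun e : prs J1 => g e.1.1 e.1.2) l i = g i l := by
  unfold xt
  by_cases hl : l = i
  · subst hl
    rw [hg0]
    exact z2_dbl _
  by_cases h : (i, l) ∈ prs J1
  · have h' : (l, i) ∉ prs J1 := by
      intro h'
      obtain ⟨h1, -, h3⟩ := mem_prs.1 h
      obtain ⟨k1, -, k3⟩ := mem_prs.1 h'
      exact lt_asymm (h3 k1) (k3 h1)
    rw [dif_pos h, dif_neg h', add_zero]
  · have h1 : l ∈ J1 ∧ ¬ i < l := by
      by_contra hcon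
      apply h
      refine mem_prs.2 ⟨hi, hl, fun hl' => ?_⟩
      by_contra hil
      exact hcon ⟨hl', hil⟩
    have h2 : (l, i) ∈ prs J1 := mem_prs.2 ⟨h1.1, fun h => hl h.symm,
      fun _ => lt_of_le_of_ne (not_lt.1 h1.2) hl⟩
    rw [dif_neg h, dif_pos h2, zero_add]
    exact hg l h1.1 i hi

/-- the homomorphism to the tables of symbols -/
noncomputable def φp (J1 : Finset ι) : (ι → ι → ZMod 2) →+ (prs J1 → ZMod 2) where
  toFun x := fun e => x e.1.1 e.1.2 + x e.1.2 e.1.1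
  map_zero' := by
    funext e
    exact add_zero _
  map_add' x y := by
    funext e
    show (x e.1.1 e.1.2 + y e.1.1 e.1.2) + (x e.1.2 e.1.1 + y e.1.2 e.1.1) =
      (x e.1.1 e.1.2 + x e.1.2 e.1.1) + (y e.1.1 e.1.2 + y e.1.2 e.1.1)
    ring

theorem φp_surj (J1 : Finset ι) : Function.Surjective (φp J1) := by
  intro α
  refine ⟨xt α, ?_⟩
  funext e
  show xt α e.1.1 e.1.2 + xt α e.1.2 e.1.1 = α e
  obtain ⟨⟨i, l⟩, h⟩ := e
  have h' : (l, i) ∉ prs J1 := by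
    intro h'
    obtain ⟨h1, -, h3⟩ := mem_prs.1 h
    obtain ⟨k1, -, k3⟩ := mem_prs.1 h'
    exact lt_asymm (h3 k1) (k3 h1)
  unfold xt
  show (if h : (i, l) ∈ prs J1 then α ⟨(i, l), h⟩ else 0) +
    (if h : (l, i) ∈ prs J1 then α ⟨(l, i), h⟩ else 0) = _
  rw [dif_pos h, dif_neg h', add_zero]

/-- the mean over the tables is the mean over the matrices -/
theorem avg_tab (h : (↥S₀.powerset × Finset ι → ℕ) → ℝ) :
    avg (fun α : prs J1 → ZMod 2 => h (Kt Φ f U₀ S₀ J1 q (xt α))) =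
      aX (fun x : ι → ι → ZMod 2 => h (Kt Φ f U₀ S₀ J1 q x)) := by
  rw [← avg_hom (φp J1) (φp_surj J1) (fun α => h (Kt Φ f U₀ S₀ J1 q (xt α)))]
  have h1 : (fun x : ι → ι → ZMod 2 => h (Kt Φ f U₀ S₀ J1 q (xt (φp J1 x)))) =
      fun x : ι → ι → ZMod 2 => h (Kt Φ f U₀ S₀ J1 q x) := by
    funext x
    congr 1
    refine Kt_congr fun i hi l => ?_
    exact xt_add (fun i l => x i l + x l i) (fun _ _ _ _ => add_comm _ _) (fun i => z2_dbl _) hi l
  rw [h1]
  exact avg_inst _ _ _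

end

section
variable {ι : Type} [Fintype ι] {Φ : Fam} {f : ℕ → ZMod 2} {U₀ W S₀ : Finset ℕ}
  {J1 : Finset ι} {q : ι → ℕ}

/-- the regularity for the matrices -/
theorem reg_L (ht : Tu Φ J1 (S₀ ∪ W) q) {L : ℕ} (hR : RN Φ L (S₀ ∪ W) (univ.image q))
    {T : Finset ℕ} (hT : T ⊆ S₀ ∪ W) (w : Ac Φ T → ZMod 2) (hw : w ≠ 0) :
    L ≤ (Aw (vv Φ T q) J1 w).card := by
  have hinj : Function.Injective (Subtype.val : Ac Φ T → ℕ) := Subtype.val_injective
  set w' : Finset ℕ := Finset.image (Subtype.val : Ac Φ T → ℕ)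
    (univ.filter fun u : Ac Φ T => w u ≠ 0) with hw'
  have h1 : w' ⊆ S₀ ∪ W := by
    intro u hu
    obtain ⟨u', -, rfl⟩ := Finset.mem_image.1 hu
    exact hT u'.2.1
  have h2 : w'.Nonempty := by
    obtain ⟨u, hu⟩ := Function.ne_iff.1 hw
    exact ⟨u, Finset.mem_image_of_mem _ (Finset.mem_filter.2 ⟨Finset.mem_univ _, hu⟩)⟩
  have h3 : ∀ u ∈ w', Φ.A u := by
    intro u hu
    obtain ⟨u', -, rfl⟩ := Finset.mem_image.1 hu
    exact u'.2.2
  refine (hR w' h1 h2 h3).trans ?_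
  have h4 : ∀ n : ℕ, ∑ u ∈ w', nr n u = ∑ r : Ac Φ T, nr n r * w r := by
    intro n
    rw [hw', Finset.sum_image fun a _ b _ h => hinj h, Finset.sum_filter]
    refine Finset.sum_congr rfl fun r _ => ?_
    rcases z2_all (w r) with h | h
    · rw [h, if_neg (fun h' => h' rfl), mul_zero]
    · rw [h, if_pos one_ne_zero, mul_one]
  have h5 : ((univ.image q).filter fun p => Φ.A p ∧ ∑ u ∈ w', nr p u ≠ 0) ⊆
      (Aw (vv Φ T q) J1 w).image q := by
    intro n hn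
    obtain ⟨h6, h7, h8⟩ := Finset.mem_filter.1 hn
    obtain ⟨i, -, rfl⟩ := Finset.mem_image.1 h6
    refine Finset.mem_image_of_mem _ (Finset.mem_filter.2 ⟨((ht.2 i).2.2).2 h7, ?_⟩)
    rw [h4] at h8
    exact h8
  exact (Finset.card_le_card h5).trans Finset.card_image_le

theorem reg_J (ht : Tu Φ J1 (S₀ ∪ W) q) {L : ℕ}
    (h : L ≤ ((univ.image q).filter fun p => Φ.A p).card) : L ≤ J1.card := by
  refine h.trans ?_
  have h5 : ((univ.image q).filter fun p => Φ.A p) ⊆ J1.image q := by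
    intro n hn
    obtain ⟨h6, h7⟩ := Finset.mem_filter.1 hn
    obtain ⟨i, -, rfl⟩ := Finset.mem_image.1 h6
    exact Finset.mem_image_of_mem _ (((ht.2 i).2.2).2 h7)
  exact (Finset.card_le_card h5).trans Finset.card_image_le

theorem reg_Jc (ht : Tu Φ J1 (S₀ ∪ W) q) {L : ℕ}
    (h : L ≤ ((univ.image q).filter fun p => ¬ Φ.A p).card) : L ≤ (J1ᶜ).card := by
  refine h.trans ?_
  have h5 : ((univ.image q).filter fun p => ¬ Φ.A p) ⊆ (J1ᶜ).image q := by
    intro n hn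
    obtain ⟨h6, h7⟩ := Finset.mem_filter.1 hn
    obtain ⟨i, -, rfl⟩ := Finset.mem_image.1 h6
    exact Finset.mem_image_of_mem _ (Finset.mem_compl.2 fun h' => h7 (((ht.2 i).2.2).1 h'))
  exact (Finset.card_le_card h5).trans Finset.card_image_le

theorem card_Ac {T : Finset ℕ} : Fintype.card (Ac Φ T) ≤ T.card := by
  have h : Fintype.card (Ac Φ T) = (T.filter Φ.A).card :=
    Fintype.card_of_subtype (T.filter Φ.A) fun _ => Finset.mem_filter
  rw [h]
  exact Finset.card_filter_le _ _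

end

end Q155.NL
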