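import Pool.Agent.Q155.KT.Law
import Pool.Agent.Q155.KG.Stat

/-!
# One bordering by a vector which is partly fixed
-/

set_option autoImplicit false
set_option linter.unusedSectionVars false

namespace Q155.NL

open Finset Matrix
open Q155.KT (kz sb kz_pos kz_pow kz_le z2_all z2_dbl exists_ker kz_sb_out kz_sb_in gF gF_zero gF_succ
  avg_z2 avg_ite sb_symm)
open Pool.Agent.Q1.PT (avg avg_equiv avg_prod avg_mono avg_const avg_add avg_sub abs_avg avg_hom)
open scoped Classical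

section
variable {τ υ : Type} [Fintype τ] [Fintype υ] [DecidableEq υ]

/-- the number of the vectors with given image on the first part -/
theorem fib_card (N : Matrix (τ ⊕ υ) (τ ⊕ υ) (ZMod 2)) (c : τ → ZMod 2) :
    Nat.card {w : τ ⊕ υ → ZMod 2 // (N *ᵥ w) ∘ Sum.inl = c} =
      Nat.card {z : υ → ZMod 2 // ∃ w, N *ᵥ w = Sum.elim c z} * kz N := by
  have key : ∀ z : {z : υ → ZMod 2 // ∃ w, N *ᵥ w = Sum.elim c z},
      Nat.card {w : τ ⊕ υ → ZMod 2 // N *ᵥ w = Sum.elim c z.1} = kz N := by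
    rintro ⟨z, w₀, hw₀⟩
    unfold kz
    refine Nat.card_congr ⟨fun w => ⟨w.1 + w₀, ?_⟩, fun x => ⟨x.1 + w₀, ?_⟩, fun w => ?_, fun x => ?_⟩
    · rw [Matrix.mulVec_add, w.2, hw₀]
      funext i
      exact z2_dbl _
    · rw [Matrix.mulVec_add, x.2, hw₀, zero_add]
    · refine Subtype.ext ?_
      show w.1 + w₀ + w₀ = w.1
      rw [add_assoc]
      have : w₀ + w₀ = 0 := funext fun i => z2_dbl _
      rw [this, add_zero]
    · refine Subtype.ext ?_
      show x.1 + w₀ + w₀ = x.1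
      rw [add_assoc]
      have : w₀ + w₀ = 0 := funext fun i => z2_dbl _
      rw [this, add_zero]
  have e : {w : τ ⊕ υ → ZMod 2 // (N *ᵥ w) ∘ Sum.inl = c} ≃
      Σ z : {z : υ → ZMod 2 // ∃ w, N *ᵥ w = Sum.elim c z},
        {w : τ ⊕ υ → ZMod 2 // N *ᵥ w = Sum.elim c z.1} :=
    { toFun := fun w => ⟨⟨(N *ᵥ w.1) ∘ Sum.inr, w.1, by
          funext i
          rcases i with i | i
          · exact congrFun w.2 i
          · rfl⟩, ⟨w.1, by
          funext i
          rcases i with i | i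
          · exact congrFun w.2 i
          · rfl⟩⟩
      invFun := fun s => ⟨s.2.1, by rw [s.2.2]; rfl⟩
      left_inv := fun w => rfl
      right_inv := by
        rintro ⟨⟨z, hz⟩, ⟨w, hw⟩⟩
        have h1 : (N *ᵥ w) ∘ Sum.inr = z := by rw [hw]; rfl
        subst h1
        rfl }
  rw [Nat.card_congr e, Nat.card_sigma, Finset.sum_congr rfl fun z _ => key z, Finset.sum_const,
    Finset.card_univ, smul_eq_mul, Nat.card_eq_fintype_card]

/-- under the injectivity condition the first part of the image is everything -/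
theorem fib_eq {N : Matrix (τ ⊕ υ) (τ ⊕ υ) (ZMod 2)} (hN : N.IsSymm)
    (hK : ∀ x : τ → ZMod 2, N *ᵥ (Sum.elim x 0) = 0 → x = 0) (c : τ → ZMod 2) :
    Nat.card {w : τ ⊕ υ → ZMod 2 // (N *ᵥ w) ∘ Sum.inl = c} = 2 ^ Fintype.card υ := by
  let B : Matrix τ (τ ⊕ υ) (ZMod 2) := Matrix.of fun i j => N (Sum.inl i) j
  have hB : ∀ w, B *ᵥ w = (N *ᵥ w) ∘ Sum.inl := fun w => rfl
  have hBt : ∀ x : τ → ZMod 2, Bᵀ *ᵥ x = N *ᵥ (Sum.elim x 0) := by
    intro x
    funext j
    simp only [Matrix.mulVec, dotProduct, Fintype.sum_sum_type, Sum.elim_inl, Sum.elim_inr,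
      Pi.zero_apply, mul_zero, Finset.sum_const_zero, add_zero, Matrix.transpose_apply]
    refine Finset.sum_congr rfl fun i _ => ?_
    show N (Sum.inl i) j * x i = N j (Sum.inl i) * x i
    rw [hN.apply j (Sum.inl i)]
  have hinj : Function.Injective Bᵀ.mulVecLin := by
    rw [injective_iff_map_eq_zero]
    intro x hx
    rw [Matrix.mulVecLin_apply, hBt] at hx
    exact hK x hx
  have hrank : B.rank = Fintype.card τ := by
    rw [← Matrix.rank_transpose]
    unfold Matrix.rank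
    rw [LinearMap.finrank_range_of_inj hinj, Module.finrank_fintype_fun_eq_card]
  have hsurj : Function.Surjective B.mulVecLin := by
    rw [← LinearMap.range_eq_top]
    apply Submodule.eq_top_of_finrank_eq
    have : Module.finrank (ZMod 2) (LinearMap.range B.mulVecLin) = B.rank := rfl
    rw [this, hrank, Module.finrank_fintype_fun_eq_card]
  have h1 : avg (fun w : τ ⊕ υ → ZMod 2 => if B *ᵥ w = c then (1 : ℝ) else 0) =
      avg (fun v : τ → ZMod 2 => if v = c then (1 : ℝ) else 0) :=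
    avg_hom B.mulVecLin.toAddMonoidHom hsurj (fun v => if v = c then (1 : ℝ) else 0)
  unfold avg at h1
  rw [Finset.sum_boole, Finset.sum_boole, Finset.filter_eq' _ c, if_pos (Finset.mem_univ c),
    Finset.card_singleton, Fintype.card_fun, Fintype.card_fun, ZMod.card, Fintype.card_sum] at h1
  have h2 : (Nat.card {w : τ ⊕ υ → ZMod 2 // (N *ᵥ w) ∘ Sum.inl = c} : ℝ) = 2 ^ Fintype.card υ := by
    rw [Nat.card_eq_fintype_card, Fintype.card_subtype]
    have h3 : ((univ.filter fun w : τ ⊕ υ → ZMod 2 => B *ᵥ w = c).card : ℝ) = 2 ^ Fintype.card υ := by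
      rw [div_eq_div_iff (by positivity) (by positivity)] at h1
      push_cast at h1
      rw [pow_add] at h1
      have h4 : (2 : ℝ) ^ Fintype.card τ ≠ 0 := by positivity
      apply mul_right_cancel₀ h4
      linarith
    exact h3
  exact_mod_cast h2

/-- the mean over one bordering with fixed part `c` -/
theorem avg_aff {N : Matrix (τ ⊕ υ) (τ ⊕ υ) (ZMod 2)} (hN : N.IsSymm) (c : τ → ZMod 2)
    (F : ℕ → ℝ) :
    avg (fun p : (υ → ZMod 2) × ZMod 2 => F (kz (sb N (Sum.elim c p.1) p.2))) =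
      (Nat.card {z : υ → ZMod 2 // ∃ w, N *ᵥ w = Sum.elim c z} : ℝ) / 2 ^ Fintype.card υ *
        ((F (kz N) + F (2 * kz N)) / 2) +
      (1 - (Nat.card {z : υ → ZMod 2 // ∃ w, N *ᵥ w = Sum.elim c z} : ℝ) / 2 ^ Fintype.card υ) *
        F (kz N / 2) := by
  rw [avg_prod]
  have h1 : ∀ z : υ → ZMod 2, avg (fun d : ZMod 2 => F (kz (sb N (Sum.elim c z) d))) =
      if ∃ w, N *ᵥ w = Sum.elim c z then (F (kz N) + F (2 * kz N)) / 2 else F (kz N / 2) := by
    intro z
    by_cases hv : ∃ w, N *ᵥ w = Sum.elim c z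
    · rw [if_pos hv]
      obtain ⟨w, hw⟩ := hv
      rw [avg_z2, ← hw, kz_sb_in hN, kz_sb_in hN]
      rcases z2_all (w ⬝ᵥ (N *ᵥ w)) with h | h
      · rw [h, if_pos rfl, if_neg one_ne_zero]
        ring
      · rw [h, if_neg zero_ne_one, if_pos rfl]
    · rw [if_neg hv]
      have : (fun d : ZMod 2 => F (kz (sb N (Sum.elim c z) d))) = fun _ => F (kz N / 2) := by
        funext d
        rw [kz_sb_out hN hv]
      rw [this, avg_const]
  show avg (fun v => avg fun d => F (kz (sb N (Sum.elim c v) d))) = _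
  simp_rw [h1]
  rw [avg_ite]

/-- **with the injectivity condition** -/
theorem avg_inj {N : Matrix (τ ⊕ υ) (τ ⊕ υ) (ZMod 2)} (hN : N.IsSymm)
    (hK : ∀ x : τ → ZMod 2, N *ᵥ (Sum.elim x 0) = 0 → x = 0) (c : τ → ZMod 2) (F : ℕ → ℝ) :
    avg (fun p : (υ → ZMod 2) × ZMod 2 => F (kz (sb N (Sum.elim c p.1) p.2))) =
      (1 - 1 / (kz N : ℝ)) * F (kz N / 2) + 1 / (2 * (kz N : ℝ)) * (F (kz N) + F (2 * kz N)) := by
  rw [avg_aff hN]
  have h1 := fib_card N c
  rw [fib_eq hN hK c] at h1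
  have hz : (0 : ℝ) < kz N := by exact_mod_cast kz_pos N
  have h2 : (Nat.card {z : υ → ZMod 2 // ∃ w, N *ᵥ w = Sum.elim c z} : ℝ) / 2 ^ Fintype.card υ =
      1 / (kz N : ℝ) := by
    have h3 : (2 : ℝ) ^ Fintype.card υ =
        (Nat.card {z : υ → ZMod 2 // ∃ w, N *ᵥ w = Sum.elim c z} : ℝ) * kz N := by exact_mod_cast h1
    rw [div_eq_div_iff (by positivity) hz.ne', h3]
    ring
  rw [h2]
  field_simp
  ring

/-- **without the condition**, for the size of the kernel -/
theorem avg_kz_le {N : Matrix (τ ⊕ υ) (τ ⊕ υ) (ZMod 2)} (hN : N.IsSymm) (c : τ → ZMod 2) :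
    avg (fun p : (υ → ZMod 2) × ZMod 2 => (kz (sb N (Sum.elim c p.1) p.2) : ℝ)) ≤
      (kz N : ℝ) / 2 + 2 ^ Fintype.card τ := by
  rw [avg_aff hN c (fun z => (z : ℝ))]
  have h1 := fib_card N c
  have h2 : Nat.card {w : τ ⊕ υ → ZMod 2 // (N *ᵥ w) ∘ Sum.inl = c} ≤
      2 ^ (Fintype.card τ + Fintype.card υ) := by
    rw [Nat.card_eq_fintype_card]
    refine (Fintype.card_subtype_le _).trans (le_of_eq ?_)
    rw [Fintype.card_fun, ZMod.card, Fintype.card_sum]
  rw [h1] at h2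
  set P := Nat.card {z : υ → ZMod 2 // ∃ w, N *ᵥ w = Sum.elim c z} with hP
  have h3 : (P : ℝ) / 2 ^ Fintype.card υ * kz N ≤ 2 ^ Fintype.card τ := by
    rw [div_mul_eq_mul_div, div_le_iff₀ (by positivity), ← pow_add]
    exact_mod_cast h2
  have h4 : ((kz N / 2 : ℕ) : ℝ) ≤ (kz N : ℝ) / 2 := Nat.cast_div_le
  have h5 : (0 : ℝ) ≤ (P : ℝ) / 2 ^ Fintype.card υ := by positivity
  have h6 : (P : ℝ) / 2 ^ Fintype.card υ ≤ 1 := by
    rw [div_le_one (by positivity)]
    have : P ≤ 2 ^ Fintype.card υ := by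
      rw [hP, Nat.card_eq_fintype_card]
      refine (Fintype.card_subtype_le _).trans (le_of_eq ?_)
      rw [Fintype.card_fun, ZMod.card]
    exact_mod_cast this
  push_cast
  nlinarith

/-- one bordering at most doubles the kernel -/
theorem kz_sb_le {n : Type} [Fintype n] [DecidableEq n] {N : Matrix n n (ZMod 2)} (hN : N.IsSymm)
    (v : n → ZMod 2) (d : ZMod 2) : kz (sb N v d) ≤ 2 * kz N := by
  by_cases hv : ∃ w, N *ᵥ w = v
  · obtain ⟨w, rfl⟩ := hv
    rw [kz_sb_in hN]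
    split_ifs <;> omega
  · rw [kz_sb_out hN hv]
    omega

end

end Q155.NL
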