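import Pool.Agent.Q155.NL.Aff

/-!
# Random symbols among the large primes, fixed labels: the chain
-/

set_option autoImplicit false
set_option linter.unusedSectionVars false

namespace Q155.NL

open Finset Matrix
open Q155.KT (kz sb kz_pos kz_pow kz_le z2_all z2_dbl gF gF_zero gF_succ sb_symm)
open Pool.Agent.Q1.PT (avg avg_equiv avg_prod avg_mono avg_const avg_add avg_sub abs_avg avg_hom)
open scoped Classical

theorem avg_mulc {α : Type} [Fintype α] (f : α → ℝ) (c : ℝ) :
    avg (fun a => f a * c) = avg f * c := by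
  unfold avg
  rw [← Finset.sum_mul, div_mul_eq_mul_div]

theorem avg_sums {α κ : Type} [Fintype α] (s : Finset κ) (f : κ → α → ℝ) :
    avg (fun a => ∑ i ∈ s, f i a) = ∑ i ∈ s, avg (f i) := by
  unfold avg
  rw [Finset.sum_comm, Finset.sum_div]

section
variable {τ ι : Type} [Fintype τ] [Fintype ι]

/-- the symbols (`x i j + x j i`) and the diagonal -/
abbrev Px (ι : Type) : Type := (ι → ι → ZMod 2) × (ι → ZMod 2)

/-- the matrix; `V` are the active indices, `W` all of them -/
noncomputable def cm (M : Matrix τ τ (ZMod 2)) (v : ι → τ → ZMod 2) (e : ι → ZMod 2)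
    (V W : Finset ι) (p : Px ι) : Matrix (τ ⊕ V) (τ ⊕ V) (ZMod 2) :=
  Matrix.fromBlocks M (Matrix.of fun r i => v i r) (Matrix.of fun i r => v i r)
    (Matrix.of fun i j => if i = j then e i + p.2 i + ∑ l ∈ W, (p.1 i l + p.1 l i)
      else p.1 i j + p.1 j i)

variable {M : Matrix τ τ (ZMod 2)} {v : ι → τ → ZMod 2} {e : ι → ZMod 2}

theorem cm_symm (hM : M.IsSymm) (V W : Finset ι) (p : Px ι) : (cm M v e V W p).IsSymm := by
  refine Matrix.IsSymm.ext fun i j => ?_
  unfold cm
  rcases i with i | i <;> rcases j with j | j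
  · exact hM.apply i j
  · rfl
  · rfl
  · rw [Matrix.fromBlocks_apply₂₂, Matrix.fromBlocks_apply₂₂, Matrix.of_apply, Matrix.of_apply]
    by_cases hij : i = j
    · subst hij
      rfl
    · rw [if_neg hij, if_neg (fun h' => hij h'.symm), add_comm]

/-- the shift of the row `b` on the set `V`, with the compensation on the diagonal -/
noncomputable def shb (b : ι) (V : Finset ι) (z : ι → ZMod 2) (d : ZMod 2) : Px ι :=
  (fun i j => if i = b ∧ j ∈ V then z j else 0,
    fun i => if i ∈ V then z i else if i = b then d + ∑ l ∈ V, z l else 0)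

/-- the index set of the next matrix -/
noncomputable def eqb (τ : Type) {V : Finset ι} {b : ι} (hb : b ∉ V) :
    (τ ⊕ V) ⊕ Unit ≃ τ ⊕ ↥(insert b V) := by
  refine (Equiv.sumAssoc _ _ _).trans ((Equiv.refl _).sumCongr (Equiv.ofBijective
    (Sum.elim (fun j : V => (⟨j, Finset.mem_insert_of_mem j.2⟩ : ↥(insert b V)))
      fun _ : Unit => ⟨b, Finset.mem_insert_self b V⟩) ⟨?_, ?_⟩))
  · rintro (x | x) (y | y) h
    · simp only [Sum.elim_inl, Subtype.mk.injEq] at h
      rw [Subtype.ext h]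
    · simp only [Sum.elim_inl, Sum.elim_inr, Subtype.mk.injEq] at h
      exact absurd (h ▸ x.2) hb
    · simp only [Sum.elim_inl, Sum.elim_inr, Subtype.mk.injEq] at h
      exact absurd (h ▸ y.2) hb
    · rfl
  · rintro ⟨j, hj⟩
    rcases Finset.mem_insert.1 hj with rfl | h
    · exact ⟨Sum.inr (), rfl⟩
    · exact ⟨Sum.inl ⟨j, h⟩, rfl⟩

theorem eqb_1 {V : Finset ι} {b : ι} (hb : b ∉ V) (r : τ) :
    eqb τ hb (Sum.inl (Sum.inl r)) = Sum.inl r := rfl

theorem eqb_2 {V : Finset ι} {b : ι} (hb : b ∉ V) (j : V) :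
    eqb τ hb (Sum.inl (Sum.inr j)) = Sum.inr ⟨j, Finset.mem_insert_of_mem j.2⟩ := rfl

theorem eqb_3 {V : Finset ι} {b : ι} (hb : b ∉ V) (u : Unit) :
    eqb τ hb (Sum.inr u) = Sum.inr ⟨b, Finset.mem_insert_self b V⟩ := rfl

/-- **The bordering.** -/
theorem cm_insert {V W : Finset ι} {b : ι} (hb : b ∉ V) (p : Px ι) :
    (cm M v e (insert b V) W p).submatrix (eqb τ hb) (eqb τ hb) =
      sb (cm M v e V W p) (Sum.elim (v b) fun j : V => p.1 b j + p.1 j b)
        (e b + p.2 b + ∑ l ∈ W, (p.1 b l + p.1 l b)) := by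
  have hne : ∀ j : V, (j : ι) ≠ b := fun j h => hb (h ▸ j.2)
  ext i j
  rw [Matrix.submatrix_apply]
  unfold cm sb
  rcases i with (i | i) | i <;> rcases j with (j | j) | j
  · rfl
  · rfl
  · rfl
  · rfl
  · rw [eqb_2, eqb_2, Matrix.fromBlocks_apply₂₂, Matrix.fromBlocks_apply₁₁,
      Matrix.fromBlocks_apply₂₂, Matrix.of_apply, Matrix.of_apply]
    by_cases hij : i = j
    · subst hij
      rw [if_pos rfl, if_pos rfl]
    · rw [if_neg hij]
      exact if_neg (fun h => hij (Subtype.ext (congrArg (fun z : ↥(insert b V) => (z : ι)) h)))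
  · rw [eqb_2, eqb_3, Matrix.fromBlocks_apply₂₂, Matrix.fromBlocks_apply₁₂, Matrix.of_apply,
      if_neg (fun h => hne i (congrArg Subtype.val h))]
    exact add_comm _ _
  · rfl
  · rw [eqb_2, eqb_3, Matrix.fromBlocks_apply₂₂, Matrix.fromBlocks_apply₂₁, Matrix.of_apply,
      if_neg (fun h => hne j (congrArg Subtype.val h).symm)]
    rfl
  · rw [eqb_3, Matrix.fromBlocks_apply₂₂, Matrix.fromBlocks_apply₂₂, Matrix.of_apply,
      if_pos rfl]
    rfl

theorem kz_submatrix {n m : Type} [Fintype n] [Fintype m] (N : Matrix n n (ZMod 2)) (E : m ≃ n) :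
    kz (N.submatrix E E) = kz N := by
  unfold kz
  refine Nat.card_congr (Equiv.subtypeEquiv (Equiv.arrowCongr E (Equiv.refl _)) fun x => ?_)
  have h : ∀ x : m → ZMod 2, N *ᵥ (x ∘ E.symm) = (N.submatrix E E *ᵥ x) ∘ E.symm := by
    intro x
    rw [Matrix.submatrix_mulVec_equiv]
    funext i
    simp [Function.comp]
  constructor
  · intro hx
    show N *ᵥ (x ∘ E.symm) = 0
    rw [h, hx]
    rfl
  · intro hx
    have h1 : N *ᵥ (x ∘ E.symm) = 0 := hx
    rw [h] at h1
    funext i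
    have := congrFun h1 (E i)
    simpa using this

theorem kz_insert {V W : Finset ι} {b : ι} (hb : b ∉ V) (p : Px ι) :
    kz (cm M v e (insert b V) W p) = kz (sb (cm M v e V W p)
      (Sum.elim (v b) fun j : V => p.1 b j + p.1 j b)
      (e b + p.2 b + ∑ l ∈ W, (p.1 b l + p.1 l b))) := by
  rw [← cm_insert hb, kz_submatrix]

/-- the shift does not change the smaller matrix -/
theorem cm_sh {V W : Finset ι} {b : ι} (hb : b ∉ V) (hbW : b ∈ W) (z : ι → ZMod 2) (d : ZMod 2)
    (p : Px ι) : cm M v e V W (p + shb b V z d) = cm M v e V W p := by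
  have hne : ∀ j : V, (j : ι) ≠ b := fun j h => hb (h ▸ j.2)
  unfold cm
  congr 1
  ext i j
  rw [Matrix.of_apply, Matrix.of_apply]
  by_cases hij : i = j
  · rw [if_pos hij, if_pos hij]
    have h1 : ∀ l ∈ W, ((p + shb b V z d).1 i l + (p + shb b V z d).1 l i) =
        (p.1 i l + p.1 l i) + if l = b then z i else 0 := by
      intro l _
      show (p.1 i l + (if (i : ι) = b ∧ l ∈ V then z l else 0)) +
        (p.1 l i + (if l = b ∧ (i : ι) ∈ V then z i else 0)) = _
      rw [if_neg (fun h => hne i h.1)]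
      by_cases hl : l = b
      · rw [if_pos ⟨hl, i.2⟩, if_pos hl]
        ring
      · rw [if_neg (fun h => hl h.1), if_neg hl]
        ring
    rw [Finset.sum_congr rfl h1, Finset.sum_add_distrib, Finset.sum_ite_eq' W b (fun _ => z i),
      if_pos hbW]
    show e i + (p.2 i + (if (i : ι) ∈ V then z i else _)) + (_ + z i) = _
    rw [if_pos i.2]
    linear_combination z2_dbl (z i)
  · rw [if_neg hij, if_neg hij]
    show (p.1 i j + (if (i : ι) = b ∧ (j : ι) ∈ V then z j else 0)) +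
      (p.1 j i + (if (j : ι) = b ∧ (i : ι) ∈ V then z i else 0)) = _
    rw [if_neg (fun h => hne i h.1), if_neg (fun h => hne j h.1), add_zero, add_zero]

/-- the new row after the shift -/
theorem row_sh {V : Finset ι} {b : ι} (hb : b ∉ V) (z : ι → ZMod 2)
    (d : ZMod 2) (p : Px ι) (j : V) :
    (p + shb b V z d).1 b j + (p + shb b V z d).1 j b = (p.1 b j + p.1 j b) + z j := by
  have hne : (j : ι) ≠ b := fun h => hb (h ▸ j.2)
  show (p.1 b j + (if b = b ∧ (j : ι) ∈ V then z j else 0)) +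
    (p.1 j b + (if (j : ι) = b ∧ b ∈ V then z b else 0)) = _
  rw [if_pos ⟨rfl, j.2⟩, if_neg (fun h => hne h.1)]
  ring

theorem diag_sh {V W : Finset ι} {b : ι} (hb : b ∉ V) (hVW : V ⊆ W) (z : ι → ZMod 2)
    (d : ZMod 2) (p : Px ι) :
    e b + (p + shb b V z d).2 b + ∑ l ∈ W, ((p + shb b V z d).1 b l + (p + shb b V z d).1 l b) =
      (e b + p.2 b + ∑ l ∈ W, (p.1 b l + p.1 l b)) + d := by
  have h1 : ∀ l ∈ W, ((p + shb b V z d).1 b l + (p + shb b V z d).1 l b) =
      (p.1 b l + p.1 l b) + if l ∈ V then z l else 0 := by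
    intro l _
    show (p.1 b l + (if b = b ∧ l ∈ V then z l else 0)) +
      (p.1 l b + (if l = b ∧ b ∈ V then z b else 0)) = _
    rw [if_neg (c := l = b ∧ b ∈ V) (fun h => hb h.2)]
    by_cases hl : l ∈ V
    · rw [if_pos ⟨rfl, hl⟩, if_pos hl]
      ring
    · rw [if_neg (fun h => hl h.2), if_neg hl]
      ring
  rw [Finset.sum_congr rfl h1, Finset.sum_add_distrib, ← Finset.sum_filter,
    Finset.filter_mem_eq_inter, Finset.inter_eq_right.2 hVW]
  show e b + (p.2 b + (if b ∈ V then z b else if b = b then d + ∑ l ∈ V, z l else 0)) + _ = _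
  rw [if_neg hb, if_pos rfl]
  linear_combination z2_dbl (∑ l ∈ V, z l)

/-- the mean over the shifts -/
theorem avg_shb (b : ι) (V : Finset ι) (f : Px ι → ℝ) :
    avg f = avg fun p : Px ι => avg fun q : (ι → ZMod 2) × ZMod 2 => f (p + shb b V q.1 q.2) := by
  have h1 : avg (fun p : Px ι => avg fun q : (ι → ZMod 2) × ZMod 2 => f (p + shb b V q.1 q.2)) =
      avg (fun q : (ι → ZMod 2) × ZMod 2 => avg fun p : Px ι => f (p + shb b V q.1 q.2)) := by
    rw [← avg_prod (fun w : Px ι × ((ι → ZMod 2) × ZMod 2) => f (w.1 + shb b V w.2.1 w.2.2)),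
      ← avg_prod (fun w : ((ι → ZMod 2) × ZMod 2) × Px ι => f (w.2 + shb b V w.1.1 w.1.2))]
    exact avg_equiv (Equiv.prodComm _ _)
      (fun w : ((ι → ZMod 2) × ZMod 2) × Px ι => f (w.2 + shb b V w.1.1 w.1.2))
  rw [h1]
  have h2 : ∀ q : (ι → ZMod 2) × ZMod 2, avg (fun p : Px ι => f (p + shb b V q.1 q.2)) = avg f :=
    fun q => avg_equiv (Equiv.addRight (shb b V q.1 q.2)) f
  simp_rw [h2]
  rw [avg_const]

/-- the mean over the new row is the mean over a bordering with fixed part -/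
theorem avg_row {V W : Finset ι} {b : ι} (hb : b ∉ V) (hbW : b ∈ W) (hVW : V ⊆ W) (F : ℕ → ℝ)
    (p : Px ι) : avg (fun q : (ι → ZMod 2) × ZMod 2 =>
      F (kz (cm M v e (insert b V) W (p + shb b V q.1 q.2)))) =
    avg (fun q : (V → ZMod 2) × ZMod 2 => F (kz (sb (cm M v e V W p) (Sum.elim (v b) q.1) q.2))) := by
  set w0 : (V → ZMod 2) × ZMod 2 := (fun j : V => p.1 b j + p.1 j b,
    e b + p.2 b + ∑ l ∈ W, (p.1 b l + p.1 l b)) with hw0
  let φ : ((ι → ZMod 2) × ZMod 2) →+ ((V → ZMod 2) × ZMod 2) :=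
    { toFun := fun q => (fun j : V => q.1 j, q.2)
      map_zero' := rfl
      map_add' := fun _ _ => rfl }
  have hφ : Function.Surjective φ := by
    rintro ⟨z, d⟩
    refine ⟨(fun i => if h : i ∈ V then z ⟨i, h⟩ else 0, d), Prod.ext (funext fun j => ?_) rfl⟩
    exact dif_pos j.2
  set ψ : (V → ZMod 2) × ZMod 2 → ℝ := fun q =>
    F (kz (sb (cm M v e V W p) (Sum.elim (v b) q.1) q.2)) with hψ
  have h1 : ∀ q : (ι → ZMod 2) × ZMod 2, F (kz (cm M v e (insert b V) W (p + shb b V q.1 q.2))) =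
      ψ (w0 + φ q) := by
    intro q
    rw [kz_insert hb, cm_sh hb hbW, diag_sh hb hVW]
    have h2 : (fun j : V => (p + shb b V q.1 q.2).1 b j + (p + shb b V q.1 q.2).1 j b) =
        (w0 + φ q).1 := funext fun j => row_sh hb q.1 q.2 p j
    rw [h2]
    rfl
  simp_rw [h1]
  rw [avg_hom φ hφ (fun z => ψ (w0 + z))]
  exact avg_equiv (Equiv.addLeft w0) ψ

/-- the labels separate -/
def Sep (v : ι → τ → ZMod 2) (V : Finset ι) : Prop :=
  ∀ x : τ → ZMod 2, (∀ i ∈ V, ∑ r, v i r * x r = 0) → x = 0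

theorem Sep.mono {V V' : Finset ι} (h : Sep v V) (hV : V ⊆ V') : Sep v V' :=
  fun x hx => h x fun i hi => hx i (hV hi)

theorem cm_inj {V W : Finset ι} (h : Sep v V) (p : Px ι) (x : τ → ZMod 2)
    (hx : cm M v e V W p *ᵥ (Sum.elim x 0) = 0) : x = 0 := by
  refine h x fun i hi => ?_
  have h1 := congrFun hx (Sum.inr ⟨i, hi⟩)
  unfold cm at h1
  rw [Matrix.fromBlocks_mulVec] at h1
  simp only [Sum.elim_inr, Pi.zero_apply] at h1
  have e1 : (Sum.elim x (0 : V → ZMod 2)) ∘ Sum.inr = 0 := rfl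
  have e2 : (Sum.elim x (0 : V → ZMod 2)) ∘ Sum.inl = x := rfl
  rw [e1, e2, Matrix.mulVec_zero, add_zero] at h1
  exact h1

/-- **One step.** -/
theorem step (hM : M.IsSymm) {V W : Finset ι} {b : ι} (hb : b ∉ V) (hbW : b ∈ W) (hVW : V ⊆ W)
    (hS : Sep v V) (F : ℕ → ℝ) (G : Px ι → ℝ)
    (hG : ∀ p z d, G (p + shb b V z d) = G p) :
    avg (fun p : Px ι => F (kz (cm M v e (insert b V) W p)) * G p) =
      avg (fun p : Px ι => gF F 1 (kz (cm M v e V W p)) * G p) := by
  rw [avg_shb b V]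
  congr 1
  funext p
  simp_rw [hG p]
  rw [avg_mulc, avg_row hb hbW hVW,
    avg_inj (cm_symm hM V W p) (cm_inj hS p) (v b) F, gF_succ, gF_zero, gF_zero, gF_zero]

/-- functions which do not depend on the rows of `B` and on the diagonal -/
def Ind (B : Finset ι) (G : Px ι → ℝ) : Prop :=
  ∀ p q : Px ι, (∀ i j, i ∉ B → p.1 i j = q.1 i j) → G p = G q

theorem Ind.sh {B : Finset ι} {G : Px ι → ℝ} (h : Ind B G) {b : ι} (hb : b ∈ B) (V : Finset ι)
    (p : Px ι) (z : ι → ZMod 2) (d : ZMod 2) : G (p + shb b V z d) = G p := by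
  refine h _ _ fun i j hi => ?_
  show p.1 i j + (if i = b ∧ j ∈ V then z j else 0) = p.1 i j
  rw [if_neg (fun h' : i = b ∧ j ∈ V => hi (h'.1 ▸ hb)), add_zero]

theorem gF_one (F : ℕ → ℝ) (k z : ℕ) : gF (gF F k) 1 z = gF F (k + 1) z := by
  rw [gF_succ, gF_zero, gF_zero, gF_zero, gF_succ]

theorem gF_comm (F : ℕ → ℝ) (k : ℕ) : ∀ z, gF (gF F 1) k z = gF F (k + 1) z := by
  induction k with
  | zero => intro z; rfl
  | succ k ih =>
    intro z
    rw [gF_succ (gF F 1), ih, ih, ih, gF_succ F (k + 1)]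

/-- **All the steps.** -/
theorem steps (hM : M.IsSymm) {W : Finset ι} (G : Px ι → ℝ) (B : Finset ι) :
    ∀ (V : Finset ι) (F : ℕ → ℝ), Disjoint B V → V ∪ B ⊆ W → Sep v V → Ind B G →
    avg (fun p : Px ι => F (kz (cm M v e (V ∪ B) W p)) * G p) =
      avg (fun p : Px ι => gF F B.card (kz (cm M v e V W p)) * G p) := by
  induction B using Finset.induction_on with
  | empty =>
    intro V F _ _ _ _
    rw [Finset.union_empty, Finset.card_empty]
    rfl
  | @insert b B hb ih =>
    intro V F hd hW hS hG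
    obtain ⟨h1, h2⟩ := Finset.disjoint_insert_left.1 hd
    have hni : b ∉ V ∪ B := by
      rw [Finset.mem_union, not_or]
      exact ⟨h1, hb⟩
    have e' : V ∪ insert b B = insert b (V ∪ B) := Finset.union_insert _ _ _
    have hW' : V ∪ B ⊆ W := (Finset.union_subset_union_right (Finset.subset_insert b B)).trans hW
    have hbW : b ∈ W := hW (Finset.mem_union_right _ (Finset.mem_insert_self b B))
    have hG' : Ind B G := fun p q h => hG p q fun i j hi => h i j fun h' => hi
      (Finset.mem_insert_of_mem h')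
    rw [e', step hM hni hbW hW' (hS.mono Finset.subset_union_left) F G
      (fun p z d => hG.sh (Finset.mem_insert_self b B) _ p z d),
      ih V (gF F 1) h2 hW' hS hG', Finset.card_insert_of_notMem hb]
    simp_rw [gF_comm]

/-- **The mean size of the kernel.** -/
theorem mean_kz (hM : M.IsSymm) {W : Finset ι} (V : Finset ι) : V ⊆ W →
    avg (fun p : Px ι => (kz (cm M v e V W p) : ℝ)) ≤ 2 ^ (Fintype.card τ + 1) := by
  induction V using Finset.induction_on with
  | empty =>
    intro _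
    have h1 : ∀ p : Px ι, (kz (cm M v e ∅ W p) : ℝ) ≤ 2 ^ (Fintype.card τ + 1) := by
      intro p
      have h2 := kz_le (cm M v e ∅ W p)
      rw [Fintype.card_sum] at h2
      have h3 : Fintype.card (↥(∅ : Finset ι)) = 0 := by simp
      rw [h3, add_zero] at h2
      have h4 : (2 : ℕ) ^ Fintype.card τ ≤ 2 ^ (Fintype.card τ + 1) :=
        Nat.pow_le_pow_right (by norm_num) (Nat.le_succ _)
      exact_mod_cast h2.trans h4
    exact (avg_mono h1).trans (le_of_eq (avg_const _))
  | @insert b V hb ih =>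
    intro hW
    have hVW : V ⊆ W := (Finset.subset_insert b V).trans hW
    have hbW : b ∈ W := hW (Finset.mem_insert_self b V)
    have h0 := ih hVW
    rw [avg_shb b V]
    have h1 : ∀ p : Px ι, avg (fun q : (ι → ZMod 2) × ZMod 2 =>
        (kz (cm M v e (insert b V) W (p + shb b V q.1 q.2)) : ℝ)) ≤
        (kz (cm M v e V W p) : ℝ) * (1 / 2) + 2 ^ Fintype.card τ := by
      intro p
      rw [avg_row hb hbW hVW (fun z => (z : ℝ)) p]
      refine (avg_kz_le (cm_symm hM V W p) (v b)).trans (le_of_eq ?_)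
      ring
    refine (avg_mono h1).trans ?_
    rw [avg_add, avg_const, avg_mulc]
    rw [pow_succ] at h0 ⊢
    linarith

end

end Q155.NL
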