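import Pool.Agent.Q155.NL.Pr

/-!
# Means over the pairs of subsets
-/

set_option autoImplicit false
set_option linter.unusedSectionVars false

namespace Q155.NL

open Finset Matrix
open Q155.KT (kz kz_pos kz_pow kz_le)
open Q155.KG (Lm)
open Pool.Agent.Q1.PT (avg avg_equiv avg_prod avg_mono avg_const avg_add avg_sub abs_avg avg_hom)
open scoped Classical

theorem avg_swap {α β : Type} [Fintype α] [Fintype β] (f : α → β → ℝ) :
    avg (fun a => avg fun b => f a b) = avg fun b => avg fun a => f a b := by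
  rw [← avg_prod (fun w : α × β => f w.1 w.2), ← avg_prod (fun w : β × α => f w.2 w.1)]
  exact avg_equiv (Equiv.prodComm _ _) (fun w : β × α => f w.2 w.1)

theorem avg_mulcl {α : Type} [Fintype α] (f : α → ℝ) (c : ℝ) :
    avg (fun a => c * f a) = c * avg f := by
  unfold avg
  rw [← Finset.mul_sum, mul_div_assoc]

theorem avg_sq {α : Type} [Fintype α] (f : α → ℝ) :
    avg f ^ 2 = avg fun a => avg fun b => f a * f b := by
  simp_rw [avg_mulcl]
  rw [avg_mulc, sq]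

section
variable {ι : Type} [Fintype ι]

theorem avg_pow (A : Finset ι) (s : ℝ) :
    avg (fun U : Finset ι => s ^ (A ∩ U).card) = ((1 + s) / 2) ^ A.card := by
  have h1 : ∀ U : Finset ι, s ^ (A ∩ U).card = ∏ i ∈ U, (if i ∈ A then s else 1) := by
    intro U
    rw [Finset.prod_ite, Finset.prod_const_one, mul_one, Finset.prod_const,
      Finset.filter_mem_eq_inter, Finset.inter_comm]
  have h2 : ∏ i : ι, (1 + (if i ∈ A then s else 1)) =
      ∑ U : Finset ι, ∏ i ∈ U, (if i ∈ A then s else (1 : ℝ)) := by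
    rw [Finset.prod_one_add, Finset.powerset_univ]
  have h3 : ∏ i : ι, (1 + (if i ∈ A then s else (1 : ℝ))) =
      ((1 + s) / 2) ^ A.card * 2 ^ Fintype.card ι := by
    have h4 : ∀ i : ι, (1 + (if i ∈ A then s else (1 : ℝ))) =
        (if i ∈ A then (1 + s) / 2 else 1) * 2 := by
      intro i
      split_ifs <;> ring
    rw [Finset.prod_congr rfl fun i _ => h4 i, Finset.prod_mul_distrib, Finset.prod_const,
      Finset.card_univ, Finset.prod_ite, Finset.prod_const_one, mul_one, Finset.prod_const,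
      Finset.filter_mem_eq_inter, Finset.univ_inter]
  unfold avg
  rw [Finset.sum_congr rfl fun U _ => h1 U, ← h2, h3, Fintype.card_finset]
  push_cast
  rw [mul_div_assoc, div_self (by positivity), mul_one]

theorem avg_inter (A : Finset ι) (t : ℝ) :
    avg (fun U : Finset ι => avg fun U' : Finset ι => t ^ (A ∩ (U ∩ U')).card) =
      ((3 + t) / 4) ^ A.card := by
  have h1 : ∀ U : Finset ι, avg (fun U' : Finset ι => t ^ (A ∩ (U ∩ U')).card) =
      ((1 + t) / 2) ^ (A ∩ U).card := by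
    intro U
    have h2 : ∀ U' : Finset ι, A ∩ (U ∩ U') = (A ∩ U) ∩ U' := fun U' =>
      (Finset.inter_assoc _ _ _).symm
    simp_rw [h2]
    exact avg_pow _ _
  simp_rw [h1]
  rw [avg_pow]
  congr 1
  ring

theorem avg_diff (A : Finset ι) (t : ℝ) :
    avg (fun U : Finset ι => avg fun U' : Finset ι => t ^ (A ∩ (U \ U')).card) =
      ((3 + t) / 4) ^ A.card := by
  rw [← avg_inter A t]
  congr 1
  funext U
  have h1 : ∀ U' : Finset ι, U \ U' = U ∩ U'ᶜ := fun U' => by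
    rw [← Finset.sdiff_eq_inter_compl]
  simp_rw [h1]
  exact avg_equiv (⟨fun U => Uᶜ, fun U => Uᶜ, fun U => compl_compl U, fun U => compl_compl U⟩ :
    Finset ι ≃ Finset ι) (fun U' => t ^ (A ∩ (U ∩ U')).card)

variable {τ : Type} [Fintype τ]

/-- the indices which see `w` -/
noncomputable def Aw (v : ι → τ → ZMod 2) (J1 : Finset ι) (w : τ → ZMod 2) : Finset ι :=
  J1.filter fun i => ∑ r, v i r * w r ≠ 0

theorem exists_w {v : ι → τ → ZMod 2} {J1 V : Finset ι} (h : ¬ Sep v (J1 ∩ V)) :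
    ∃ w : τ → ZMod 2, w ≠ 0 ∧ Aw v J1 w ∩ V = ∅ := by
  unfold Sep at h
  push Not at h
  obtain ⟨w, h1, h2⟩ := h
  refine ⟨w, h2, ?_⟩
  rw [Finset.eq_empty_iff_forall_notMem]
  intro i hi
  obtain ⟨h3, h4⟩ := Finset.mem_inter.1 hi
  obtain ⟨h5, h6⟩ := Finset.mem_filter.1 h3
  exact h6 (h1 i (Finset.mem_inter.2 ⟨h5, h4⟩))

/-- the good pairs -/
def GP (v : ι → τ → ZMod 2) (J1 U U' : Finset ι) : Prop :=
  Sep v (J1 ∩ (U ∩ U')) ∧ (J1ᶜ ∩ (U \ U')).Nonempty

/-- the bound of the bad pairs -/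
noncomputable def bp (v : ι → τ → ZMod 2) (J1 U U' : Finset ι) : ℝ :=
  ∑ w ∈ univ.filter (fun w : τ → ZMod 2 => w ≠ 0), (0 : ℝ) ^ (Aw v J1 w ∩ (U ∩ U')).card +
    (0 : ℝ) ^ (J1ᶜ ∩ (U \ U')).card

theorem bp_nonneg (v : ι → τ → ZMod 2) (J1 U U' : Finset ι) : 0 ≤ bp v J1 U U' := by
  unfold bp
  refine add_nonneg (Finset.sum_nonneg fun w _ => ?_) ?_ <;> exact pow_nonneg le_rfl _

theorem bp_bad {v : ι → τ → ZMod 2} {J1 U U' : Finset ι} (h : ¬ GP v J1 U U') :
    1 ≤ bp v J1 U U' := by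
  have h0 : ∀ n : ℕ, (0 : ℝ) ≤ 0 ^ n := fun n => pow_nonneg le_rfl _
  unfold GP at h
  rw [not_and_or] at h
  unfold bp
  rcases h with h | h
  · obtain ⟨w, h1, h2⟩ := exists_w h
    have h3 : (1 : ℝ) ≤ ∑ w ∈ univ.filter (fun w : τ → ZMod 2 => w ≠ 0),
        (0 : ℝ) ^ (Aw v J1 w ∩ (U ∩ U')).card := by
      refine le_trans (le_of_eq ?_) (Finset.single_le_sum (f := fun w : τ → ZMod 2 =>
        (0 : ℝ) ^ (Aw v J1 w ∩ (U ∩ U')).card) (fun w _ => h0 _)
        (Finset.mem_filter.2 ⟨Finset.mem_univ w, h1⟩))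
      show (1 : ℝ) = 0 ^ (Aw v J1 w ∩ (U ∩ U')).card
      rw [h2, Finset.card_empty, pow_zero]
    linarith [h0 (J1ᶜ ∩ (U \ U')).card]
  · rw [Finset.not_nonempty_iff_eq_empty] at h
    rw [h, Finset.card_empty, pow_zero]
    have : (0 : ℝ) ≤ ∑ w ∈ univ.filter (fun w : τ → ZMod 2 => w ≠ 0),
        (0 : ℝ) ^ (Aw v J1 w ∩ (U ∩ U')).card := Finset.sum_nonneg fun w _ => h0 _
    linarith

/-- the proportion of the bad pairs -/
theorem avg_bp {v : ι → τ → ZMod 2} {J1 : Finset ι} {L : ℕ}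
    (hL : ∀ w : τ → ZMod 2, w ≠ 0 → L ≤ (Aw v J1 w).card) :
    avg (fun U : Finset ι => avg fun U' : Finset ι => bp v J1 U U') ≤
      2 ^ Fintype.card τ * (3 / 4) ^ L + (3 / 4) ^ (J1ᶜ).card := by
  unfold bp
  simp_rw [avg_add, avg_sums]
  rw [avg_diff]
  have h1 : ∀ w ∈ univ.filter (fun w : τ → ZMod 2 => w ≠ 0),
      avg (fun U : Finset ι => avg fun U' : Finset ι =>
        (0 : ℝ) ^ (Aw v J1 w ∩ (U ∩ U')).card) ≤ (3 / 4) ^ L := by
    intro w hw
    rw [avg_inter, add_zero]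
    exact pow_le_pow_of_le_one (by norm_num) (by norm_num) (hL w (Finset.mem_filter.1 hw).2)
  have h2 : ((univ.filter (fun w : τ → ZMod 2 => w ≠ 0)).card : ℝ) ≤ 2 ^ Fintype.card τ := by
    have h3 : (univ.filter (fun w : τ → ZMod 2 => w ≠ 0)).card ≤ 2 ^ Fintype.card τ := by
      refine (Finset.card_filter_le _ _).trans (le_of_eq ?_)
      rw [Finset.card_univ, Fintype.card_fun, ZMod.card]
    exact_mod_cast h3
  have h4 : ∑ w ∈ univ.filter (fun w : τ → ZMod 2 => w ≠ 0),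
      avg (fun U : Finset ι => avg fun U' : Finset ι =>
        (0 : ℝ) ^ (Aw v J1 w ∩ (U ∩ U')).card) ≤ 2 ^ Fintype.card τ * (3 / 4) ^ L := by
    refine (Finset.sum_le_card_nsmul _ _ _ h1).trans ?_
    rw [nsmul_eq_mul]
    exact mul_le_mul_of_nonneg_right h2 (by positivity)
  have h5 : ((3 + 0) / 4 : ℝ) = 3 / 4 := by norm_num
  rw [h5]
  linarith

end

end Q155.NL
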