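import Mathlib

/-!
# One set of relative density one for countably many properties
-/

set_option autoImplicit false

namespace Q155.NL

open Finset Filter Topology
open scoped Classical

/-- the members up to `X` -/
noncomputable def cs (C : ℕ → Prop) (X : ℕ) : Finset ℕ := (Icc 1 X).filter C

theorem mem_cs {C : ℕ → Prop} {X D : ℕ} : D ∈ cs C X ↔ (1 ≤ D ∧ D ≤ X) ∧ C D := by
  unfold cs
  rw [Finset.mem_filter, Finset.mem_Icc]

/-- the number of the members up to `X` -/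
noncomputable def cnt (C : ℕ → Prop) (X : ℕ) : ℕ := (cs C X).card

/-- almost all members of `C` satisfy `T` -/
def Alm (C T : ℕ → Prop) : Prop :=
  ∀ ε : ℝ, 0 < ε → ∀ᶠ X : ℕ in atTop, (cnt (fun D => C D ∧ ¬ T D) X : ℝ) ≤ ε * cnt C X

theorem cnt_mono {P Q : ℕ → Prop} (h : ∀ D, P D → Q D) (X : ℕ) : cnt P X ≤ cnt Q X :=
  Finset.card_le_card fun D hD => mem_cs.2 ⟨(mem_cs.1 hD).1, h D (mem_cs.1 hD).2⟩

theorem cnt_add (C T : ℕ → Prop) (X : ℕ) :
    cnt (fun D => C D ∧ T D) X + cnt (fun D => C D ∧ ¬ T D) X = cnt C X := by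
  unfold cnt
  rw [← Finset.card_union_of_disjoint]
  · congr 1
    ext D
    rw [Finset.mem_union, mem_cs, mem_cs, mem_cs]
    tauto
  · rw [Finset.disjoint_left]
    intro D h1 h2
    exact (mem_cs.1 h2).2.2 (mem_cs.1 h1).2.2

theorem alm_of_tendsto {C T : ℕ → Prop}
    (h : Tendsto (fun X : ℕ => (cnt (fun D => C D ∧ T D) X : ℝ) / cnt C X) atTop (𝓝 1)) :
    Alm C T := by
  intro ε hε
  have h1 : ∀ᶠ X : ℕ in atTop, 1 - ε < (cnt (fun D => C D ∧ T D) X : ℝ) / cnt C X :=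
    h.eventually (lt_mem_nhds (by linarith))
  filter_upwards [h1] with X hX
  have h2 : (cnt (fun D => C D ∧ T D) X : ℝ) + cnt (fun D => C D ∧ ¬ T D) X = cnt C X := by
    exact_mod_cast cnt_add C T X
  rcases Nat.eq_zero_or_pos (cnt C X) with h0 | h0
  · rw [h0] at h2 ⊢
    have : (0 : ℝ) ≤ (cnt (fun D => C D ∧ T D) X : ℝ) := Nat.cast_nonneg _
    push_cast at h2 ⊢
    linarith
  · have h0' : (0 : ℝ) < cnt C X := by exact_mod_cast h0
    rw [lt_div_iff₀ h0'] at hX
    linarith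

theorem tendsto_of_alm {C T : ℕ → Prop} (hC : ∃ D, 1 ≤ D ∧ C D) (h : Alm C T) :
    Tendsto (fun X : ℕ => (cnt (fun D => C D ∧ T D) X : ℝ) / cnt C X) atTop (𝓝 1) := by
  obtain ⟨D₀, hD₀, hC₀⟩ := hC
  have hpos : ∀ X : ℕ, D₀ ≤ X → (0 : ℝ) < cnt C X := by
    intro X hX
    have : 0 < cnt C X := Finset.card_pos.2 ⟨D₀, mem_cs.2 ⟨⟨hD₀, hX⟩, hC₀⟩⟩
    exact_mod_cast this
  rw [Metric.tendsto_atTop]
  intro ε hε
  obtain ⟨X₀, h1⟩ := eventually_atTop.1 (h (ε / 2) (by positivity))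
  refine ⟨max X₀ D₀, fun X hX => ?_⟩
  have h2 := h1 X (le_trans (le_max_left _ _) hX)
  have h3 := hpos X (le_trans (le_max_right _ _) hX)
  have h4 : (cnt (fun D => C D ∧ T D) X : ℝ) + cnt (fun D => C D ∧ ¬ T D) X = cnt C X := by
    exact_mod_cast cnt_add C T X
  rw [Real.dist_eq]
  have h5 : (cnt (fun D => C D ∧ T D) X : ℝ) / cnt C X - 1 =
      -((cnt (fun D => C D ∧ ¬ T D) X : ℝ) / cnt C X) := by
    rw [div_sub_one h3.ne', ← h4]
    ring
  rw [h5, abs_neg, abs_of_nonneg (by positivity), div_lt_iff₀ h3]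
  nlinarith

theorem alm_mono {C T T' : ℕ → Prop} (h : Alm C T) (h' : ∀ D, C D → T D → T' D) : Alm C T' := by
  intro ε hε
  filter_upwards [h ε hε] with X hX
  refine le_trans ?_ hX
  have h1 : cnt (fun D => C D ∧ ¬ T' D) X ≤ cnt (fun D => C D ∧ ¬ T D) X :=
    cnt_mono (fun D (hD : C D ∧ ¬ T' D) => ⟨hD.1, fun ht => hD.2 (h' D hD.1 ht)⟩) X
  exact_mod_cast h1

theorem alm_and {C T T' : ℕ → Prop} (h : Alm C T) (h' : Alm C T') : Alm C fun D => T D ∧ T' D := by
  intro ε hε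
  filter_upwards [h (ε / 2) (by positivity), h' (ε / 2) (by positivity)] with X h1 h2
  have h3 : cnt (fun D => C D ∧ ¬ (T D ∧ T' D)) X ≤
      cnt (fun D => C D ∧ ¬ T D) X + cnt (fun D => C D ∧ ¬ T' D) X := by
    unfold cnt
    refine le_trans (Finset.card_le_card ?_) (Finset.card_union_le _ _)
    intro D hD
    obtain ⟨k1, k2, k3⟩ := mem_cs.1 hD
    by_cases ht : T D
    · exact Finset.mem_union_right _ (mem_cs.2 ⟨k1, k2, fun h'' => k3 ⟨ht, h''⟩⟩)
    · exact Finset.mem_union_left _ (mem_cs.2 ⟨k1, k2, ht⟩)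
  have h4 : (cnt (fun D => C D ∧ ¬ (T D ∧ T' D)) X : ℝ) ≤
      cnt (fun D => C D ∧ ¬ T D) X + cnt (fun D => C D ∧ ¬ T' D) X := by exact_mod_cast h3
  linarith

theorem alm_true (C : ℕ → Prop) : Alm C fun _ => True := by
  intro ε hε
  filter_upwards with X
  have : cnt (fun D => C D ∧ ¬ True) X = 0 := by
    unfold cnt
    rw [Finset.card_eq_zero, Finset.eq_empty_iff_forall_notMem]
    intro D h
    exact (mem_cs.1 h).2.2 trivial
  rw [this]
  push_cast
  positivity

theorem alm_finset {κ : Type} {C : ℕ → Prop} {T : κ → ℕ → Prop} (s : Finset κ)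
    (h : ∀ k ∈ s, Alm C (T k)) : Alm C fun D => ∀ k ∈ s, T k D := by
  induction s using Finset.induction_on with
  | empty => exact alm_mono (alm_true C) fun D _ _ k hk => absurd hk (Finset.notMem_empty k)
  | @insert a s ha ih =>
    refine alm_mono (alm_and (h a (Finset.mem_insert_self a s))
      (ih fun k hk => h k (Finset.mem_insert_of_mem hk))) fun D _ hD k hk => ?_
    rcases Finset.mem_insert.1 hk with rfl | hk
    · exact hD.1
    · exact hD.2 k hk

/-- **One set of relative density one for countably many properties.** -/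
theorem exists_dense {C : ℕ → Prop} {T : ℕ → ℕ → Prop} (h : ∀ j, Alm C (T j)) :
    ∃ S : ℕ → Prop, Alm C S ∧ ∀ j, ∀ᶠ D in atTop, S D → T j D := by
  have h1 : ∀ j, Alm C fun D => ∀ i ∈ range (j + 1), T i D := fun j =>
    alm_finset (range (j + 1)) fun i _ => h i
  have h2 : ∀ j : ℕ, ∃ a : ℕ, ∀ X, a ≤ X →
      (cnt (fun D => C D ∧ ¬ ∀ i ∈ range (j + 1), T i D) X : ℝ) ≤ 1 / (j + 1) * cnt C X :=
    fun j => eventually_atTop.1 (h1 j (1 / (j + 1)) (by positivity))
  choose a ha using h2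
  set b : ℕ → ℕ := fun j => ∑ i ∈ range (j + 1), (a i + 1) with hb
  have hab : ∀ j, a j ≤ b j := fun j =>
    (Nat.le_succ _).trans (Finset.single_le_sum (f := fun i => a i + 1) (fun _ _ => Nat.zero_le _)
      (Finset.self_mem_range_succ j))
  have hjb : ∀ j, j ≤ b j := by
    intro j
    have h3 : ∑ i ∈ range (j + 1), 1 ≤ ∑ i ∈ range (j + 1), (a i + 1) :=
      Finset.sum_le_sum fun i _ => Nat.le_add_left 1 (a i)
    rw [Finset.sum_const, Finset.card_range, smul_eq_mul, mul_one] at h3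
    show j ≤ ∑ i ∈ range (j + 1), (a i + 1)
    omega
  refine ⟨fun D => ∀ j, b j ≤ D → ∀ i ∈ range (j + 1), T i D, ?_, ?_⟩
  · intro ε hε
    obtain ⟨J, hJ⟩ := exists_nat_gt (1 / ε)
    filter_upwards [eventually_ge_atTop (b J)] with X hX
    set J' := Nat.findGreatest (fun j => b j ≤ X) X with hJ'
    have hbJ' : b J' ≤ X := by
      have := Nat.findGreatest_spec (P := fun j => b j ≤ X) ((hjb J).trans hX) hX
      exact this
    have hJJ' : J ≤ J' := Nat.le_findGreatest ((hjb J).trans hX) hX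
    have h4 : cnt (fun D => C D ∧ ¬ ∀ j, b j ≤ D → ∀ i ∈ range (j + 1), T i D) X ≤
        cnt (fun D => C D ∧ ¬ ∀ i ∈ range (J' + 1), T i D) X := by
      unfold cnt
      refine Finset.card_le_card fun D hD => ?_
      obtain ⟨k1, k2, k3⟩ := mem_cs.1 hD
      refine mem_cs.2 ⟨k1, k2, fun k4 => k3 fun j hj i hi => k4 i ?_⟩
      have k5 : b j ≤ X := hj.trans k1.2
      have k6 : j ≤ J' := Nat.le_findGreatest ((hjb j).trans k5) k5
      rw [Finset.mem_range] at hi ⊢
      omega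
    have h5 := ha J' X ((hab J').trans hbJ')
    have h6 : (cnt (fun D => C D ∧ ¬ ∀ j, b j ≤ D → ∀ i ∈ range (j + 1), T i D) X : ℝ) ≤
        cnt (fun D => C D ∧ ¬ ∀ i ∈ range (J' + 1), T i D) X := by exact_mod_cast h4
    refine h6.trans (h5.trans (mul_le_mul_of_nonneg_right ?_ (Nat.cast_nonneg _)))
    have h7 : (1 : ℝ) / ε < J' + 1 := by
      have : (J : ℝ) ≤ J' := by exact_mod_cast hJJ'
      linarith
    rw [div_le_iff₀ (by positivity)]
    rw [div_lt_iff₀ hε] at h7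
    linarith
  · intro j
    filter_upwards [eventually_ge_atTop (b j)] with D hD hS
    exact hS j hD j (Finset.self_mem_range_succ j)

end Q155.NL
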