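import Pool.Agent.Q155.NL.LocM
import Pool.Agent.Q110.NL.Box
import Pool.Agent.Q34.NL.Key
import Pool.Agent.Q34.NL.Asy
import Pool.Agent.Q210.NL.Bad

/-!
# The law of large numbers over the divisors, in the natural order
-/

set_option autoImplicit false
set_option linter.unusedSectionVars false

namespace Q155.NL

open Finset Filter Topology
open Q155.KG (FI al)
open Q283.GM (Fam Ok SS rk)
open Pool.Agent.Y703.CQ (nr prs)
open Pool.Agent.Q1.PT (avg)
open scoped Classical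

theorem card_lab {ι : Type} [Fintype ι] {p : ι → ℕ} (hp : Function.Injective p) (P : ℕ → Prop)
    [DecidablePred P] :
    ((univ.image p).filter P).card = (univ.filter fun i => P (p i)).card := by
  rw [Finset.filter_image, Finset.card_image_of_injective _ hp]

/-- the regularity depends on the labels only -/
theorem labN (Φ : Fam) (f : ℕ → ZMod 2) (A R : ℕ) (W : Finset ℕ) : LabN Φ f (Rg Φ A R W) W := by
  intro ι _ J1 S₀ p q _ hp hq hl hR
  have hA : ∀ i, Φ.A (q i) ↔ Φ.A (p i) := fun i => ((hq.2 i).2.2).symm.trans (hp.2 i).2.2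
  have hn : ∀ i, ∀ u ∈ S₀ ∪ W, nr (p i) u = nr (q i) u := fun i u hu =>
    congrFun (congrArg (fun z => z.2.1) (hl i)) (⟨u, hu⟩ : ↥(S₀ ∪ W))
  obtain ⟨h1, h2, h3⟩ := hR
  refine ⟨fun w hw hne hwA => ?_, ?_, ?_⟩
  · have h4 := h1 w hw hne hwA
    rw [card_lab hp.1] at h4
    rw [card_lab hq.1]
    refine h4.trans (le_of_eq (congrArg Finset.card (Finset.filter_congr fun i _ => ?_)))
    rw [hA i, Finset.sum_congr rfl fun u hu => hn i u (hw hu)]
  · rw [card_lab hp.1] at h2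
    rw [card_lab hq.1]
    refine h2.trans (le_of_eq (congrArg Finset.card (Finset.filter_congr fun i _ => ?_)))
    exact (hA i).symm
  · rw [card_lab hp.1] at h3
    rw [card_lab hq.1]
    refine h3.trans (le_of_eq (congrArg Finset.card (Finset.filter_congr fun i _ => ?_)))
    rw [hA i]

theorem nl_mono {I : Type} [Fintype I] {K : I → ℕ} {ε ε' : ℝ} (h : Nl K ε) (h' : ε ≤ ε') : Nl K ε' :=
  ⟨fun b => (h.1 b).trans_le h', h.2.trans_le h'⟩

theorem loc_mono {Φ : Fam} {f : ℕ → ZMod 2} {N : Finset ℕ → Finset ℕ → Prop} {T : Finset ℕ → Prop}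
    {W : Finset ℕ} {ε ε' : ℝ} (h : Loc Φ f N T W ε) (h' : ε ≤ ε') : Loc Φ f N T W ε' := by
  intro ι _ _ J1 S₀ q hS ht hN
  obtain ⟨Q, h1, h2⟩ := h ι J1 S₀ q hS ht hN
  exact ⟨Q, h1.trans (mul_le_mul_of_nonneg_right h' (by positivity)), h2⟩

/-- **The law of large numbers over the subsets, in the natural order.** -/
theorem law_SS (Φ : Fam) {δ : ℝ} (hΦ : Ok Φ δ) (f : ℕ → ZMod 2) (U₀ : Finset ℕ)
    (hU : ∀ u ∈ U₀, u.Prime) {ε : ℝ} (hε : 0 < ε) :
    Tendsto (fun X : ℕ => (((SS Φ X).filter (NT Φ f U₀ ε)).card : ℝ) / ((SS Φ X).card : ℝ))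
      atTop (𝓝 1) := by
  refine Pool.Agent.Q34.NL.asy Pool.Agent.Q34.NL.key Pool.Agent.Q210.NL.bad Φ δ hΦ _ U₀ hU ?_
  intro ε' hε'
  obtain ⟨R, hR⟩ := loc Φ f (Finset.Subset.refl U₀) (lt_min hε one_pos) (min_le_right ε 1)
    (lt_min hε' one_pos) (min_le_right ε' 1)
  refine ⟨12, R, Q110.NL.box Φ f _ _ U₀ ε' hε'.le (labN Φ f 12 R U₀) ?_⟩
  have h1 := loc_mono hR (min_le_left ε' 1)
  intro ι _ _ J1 S₀ q hS ht hN
  obtain ⟨Q, h2, h3⟩ := h1 ι J1 S₀ q hS ht hN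
  exact ⟨Q, h2, fun p hp hl hQ => nl_mono (h3 p hp hl hQ) (min_le_left ε 1)⟩

end Q155.NL
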