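import Pool.Agent.Q155.NL.Main
import Pool.Agent.Q155.NL.Dia

/-!
# The law of large numbers over the divisors of almost all members of the class
-/

set_option autoImplicit false
set_option linter.unusedSectionVars false

namespace Q155.NL

open Finset Filter Topology
open Q155.KG (FI al FI_pow fb)
open Q283.GM (Fam Ok SS rk)
open Pool.Agent.Q1.PT (avg avg_equiv)
open scoped Classical

/-- the share of the divisors of `D` with value `b` -/
noncomputable def dsh (g : ℕ → ℕ) (D b : ℕ) : ℝ :=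
  ((D.divisors.filter fun d => g d = b).card : ℝ) / D.divisors.card

/-- the mean of `2 ^ g` over the divisors of `D` -/
noncomputable def dme (g : ℕ → ℕ) (D : ℕ) : ℝ := (∑ d ∈ D.divisors, (2 : ℝ) ^ g d) / D.divisors.card

/-- the law for the divisors of `D` -/
def LD (g : ℕ → ℕ) (ε : ℝ) (D : ℕ) : Prop := (∀ b, |dsh g D b - al b| < ε) ∧ |dme g D - 2| < ε

/-- the subsets of the prime factors -/
noncomputable def eqD {D : ℕ} (hD : Squarefree D) : ↥D.primeFactors.powerset ≃ ↥D.divisors where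
  toFun S := ⟨∏ p ∈ (S : Finset ℕ), p, by
    rw [Nat.mem_divisors]
    refine ⟨?_, hD.ne_zero⟩
    have h := Finset.prod_dvd_prod_of_subset (S : Finset ℕ) D.primeFactors (fun p : ℕ => p)
      (Finset.mem_powerset.1 S.2)
    rwa [Nat.prod_primeFactors_of_squarefree hD] at h⟩
  invFun d := ⟨(d : ℕ).primeFactors, Finset.mem_powerset.2
    (Nat.primeFactors_mono (Nat.dvd_of_mem_divisors d.2) hD.ne_zero)⟩
  left_inv S := Subtype.ext (Nat.primeFactors_prod fun p hp =>
    Nat.prime_of_mem_primeFactors (Finset.mem_powerset.1 S.2 hp))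
  right_inv d := Subtype.ext (Nat.prod_primeFactors_of_squarefree
    (hD.squarefree_of_dvd (Nat.dvd_of_mem_divisors d.2)))

theorem avg_div (D : ℕ) (F : ℕ → ℝ) : avg (fun d : ↥D.divisors => F d) =
    (∑ d ∈ D.divisors, F d) / D.divisors.card := by
  unfold avg
  rw [Finset.sum_coe_sort D.divisors F, Fintype.card_coe]

theorem nt_iff {Φ : Fam} {f : ℕ → ZMod 2} {U₀ : Finset ℕ} {ε : ℝ} {D : ℕ} (hD : Squarefree D) :
    NT Φ f U₀ ε D.primeFactors ↔ LD (fun d => rk Φ f (symmDiff d.primeFactors U₀)) ε D := by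
  unfold NT
  rw [nl_congr (eqD hD) (K := fun d : ↥D.divisors => 2 ^ rk Φ f (symmDiff (d : ℕ).primeFactors U₀))
    (K' := KS Φ f U₀ D.primeFactors) (fun S => by
      have h1 : ((eqD hD S : ↥D.divisors) : ℕ).primeFactors = (S : Finset ℕ) :=
        congrArg (fun z : ↥D.primeFactors.powerset => (z : Finset ℕ)) ((eqD hD).left_inv S)
      unfold KS
      rw [h1]) ε]
  unfold Nl LD
  have h1 : ∀ b, avg (fun d : ↥D.divisors =>
      FI b (2 ^ rk Φ f (symmDiff (d : ℕ).primeFactors U₀))) =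
      dsh (fun d => rk Φ f (symmDiff d.primeFactors U₀)) D b := by
    intro b
    rw [avg_div D (fun d => FI b (2 ^ rk Φ f (symmDiff d.primeFactors U₀)))]
    unfold dsh
    simp_rw [FI_pow]
    unfold fb
    rw [Finset.sum_boole]
  have h2 : avg (fun d : ↥D.divisors =>
      ((2 ^ rk Φ f (symmDiff (d : ℕ).primeFactors U₀) : ℕ) : ℝ)) =
      dme (fun d => rk Φ f (symmDiff d.primeFactors U₀)) D := by
    rw [avg_div D (fun d => ((2 ^ rk Φ f (symmDiff d.primeFactors U₀) : ℕ) : ℝ))]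
    unfold dme
    push_cast
    rfl
  simp_rw [h1, h2]

/-- the class -/
def Cl (Φ : Fam) (D : ℕ) : Prop := Squarefree D ∧ ∀ p ∈ D.primeFactors, Φ.P p

theorem cnt_SS (Φ : Fam) (X : ℕ) (Q : Finset ℕ → Prop) :
    cnt (fun D => Cl Φ D ∧ Q D.primeFactors) X = ((SS Φ X).filter Q).card := by
  rw [← Q283.GM.card_eq Φ X Q]
  unfold cnt
  congr 1
  ext D
  rw [mem_cs, Finset.mem_filter, Finset.mem_Icc]
  unfold Cl
  tauto

/-- **Almost all members of the class have the law.** -/
theorem alm_law (Φ : Fam) {δ : ℝ} (hΦ : Ok Φ δ) (f : ℕ → ZMod 2) {U₀ : Finset ℕ}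
    (hU : ∀ u ∈ U₀, u.Prime) {ε : ℝ} (hε : 0 < ε) :
    Alm (Cl Φ) (LD (fun d => rk Φ f (symmDiff d.primeFactors U₀)) ε) := by
  have h1 := law_SS Φ hΦ f U₀ hU hε
  have h2 : ∀ X : ℕ, cnt (Cl Φ) X = (SS Φ X).card := by
    intro X
    have h3 := cnt_SS Φ X fun _ => True
    have h4 : ∀ i : DecidablePred (fun _ : Finset ℕ => True),
        (@Finset.filter _ (fun _ => True) i (SS Φ X)).card = (SS Φ X).card := fun i =>
      congrArg Finset.card (@Finset.filter_true_of_mem _ _ i _ fun _ _ => trivial)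
    rw [h4] at h3
    rw [← h3]
    unfold cnt
    congr 1
    ext D
    rw [mem_cs, mem_cs]
    tauto
  refine alm_mono (T := fun D => NT Φ f U₀ ε D.primeFactors) (alm_of_tendsto ?_)
    fun D hD h => (nt_iff hD.1).1 h
  refine h1.congr fun X => ?_
  rw [← cnt_SS, h2]

end Q155.NL
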