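import Pool.Agent.Q155.NL.Ch

/-!
# Pairs of sets of large primes: an index outside the second set randomizes the diagonal
-/

set_option autoImplicit false
set_option linter.unusedSectionVars false

namespace Q155.NL

open Finset Matrix
open Q155.KT (kz sb kz_pos kz_pow kz_le z2_all z2_dbl gF gF_zero gF_succ sb_symm)
open Q155.KG (Lm)
open Pool.Agent.Q1.PT (avg avg_equiv avg_prod avg_mono avg_const avg_add avg_sub abs_avg avg_hom)
open scoped Classical

section
variable {τ ι : Type} [Fintype τ] [Fintype ι]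

/-- the change of the row `b` -/
noncomputable def rowS (b : ι) (y : ι → ZMod 2) : ι → ι → ZMod 2 := fun i j => if i = b then y j else 0

/-- the homomorphism to the changed symbols -/
noncomputable def rowH (b : ι) : Px ι →+ (ι → ι → ZMod 2) where
  toFun p := p.1 + rowS b p.2
  map_zero' := by
    funext i j
    show (0 : ZMod 2) + (if i = b then (0 : ZMod 2) else 0) = 0
    split_ifs <;> ring
  map_add' p q := by
    funext i j
    show (p.1 i j + q.1 i j) + (if i = b then (p.2 j + q.2 j) else 0) =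
      (p.1 i j + (if i = b then p.2 j else 0)) + (q.1 i j + (if i = b then q.2 j else 0))
    split_ifs <;> ring

theorem rowH_surj (b : ι) : Function.Surjective (rowH b) := by
  intro x
  refine ⟨(x, 0), ?_⟩
  funext i j
  show x i j + (if i = b then (0 : ZMod 2) else 0) = x i j
  split_ifs <;> ring

theorem avg_row' (b : ι) (f : (ι → ι → ZMod 2) → ℝ) :
    avg f = avg fun p : Px ι => f (p.1 + rowS b p.2) :=
  (avg_hom (rowH b) (rowH_surj b) f).symm

variable {M : Matrix τ τ (ZMod 2)} {v : ι → τ → ZMod 2} {e : ι → ZMod 2}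

/-- the index `b` randomizes the diagonal -/
theorem cm_rowS {V W : Finset ι} {b : ι} (hb : b ∉ V) (hbW : b ∈ W) (x : ι → ι → ZMod 2)
    (y : ι → ZMod 2) : cm M v e V W (x + rowS b y, 0) = cm M v e V W (x, y) := by
  have hne : ∀ j : V, (j : ι) ≠ b := fun j h => hb (h ▸ j.2)
  unfold cm
  congr 1
  ext i j
  rw [Matrix.of_apply, Matrix.of_apply]
  by_cases hij : i = j
  · rw [if_pos hij, if_pos hij]
    have h1 : ∀ l ∈ W, ((x + rowS b y) i l + (x + rowS b y) l i) =
        (x i l + x l i) + if l = b then y i else 0 := by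
      intro l _
      show (x i l + (if (i : ι) = b then y l else 0)) + (x l i + (if l = b then y i else 0)) = _
      rw [if_neg (hne i)]
      ring
    show e i + 0 + ∑ l ∈ W, ((x + rowS b y) i l + (x + rowS b y) l i) =
      e i + y i + ∑ l ∈ W, (x i l + x l i)
    rw [Finset.sum_congr rfl h1, Finset.sum_add_distrib, Finset.sum_ite_eq' W b (fun _ => y i),
      if_pos hbW]
    ring
  · rw [if_neg hij, if_neg hij]
    show (x i j + (if (i : ι) = b then y j else 0)) + (x j i + (if (j : ι) = b then y i else 0)) = _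
    rw [if_neg (hne i), if_neg (hne j), add_zero, add_zero]

/-- functions which do not depend on the rows of `B` -/
def Inr (B : Finset ι) (G : (ι → ι → ZMod 2) → ℝ) : Prop :=
  ∀ x x' : ι → ι → ZMod 2, (∀ i j, i ∉ B → x i j = x' i j) → G x = G x'

/-- **Pairs.** -/
theorem pair_eq (hM : M.IsSymm) {U V B : Finset ι} {b : ι} (hd : Disjoint B V) (hU : V ∪ B ⊆ U)
    (hbU : b ∈ U) (hb : b ∉ V ∪ B) (hS : Sep v V) (F : ℕ → ℝ) {G : (ι → ι → ZMod 2) → ℝ}
    (hG : Inr (insert b B) G) :
    avg (fun x : ι → ι → ZMod 2 => F (kz (cm M v e (V ∪ B) U (x, 0))) * G x) =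
      avg (fun p : Px ι => gF F B.card (kz (cm M v e V U p)) * G p.1) := by
  rw [avg_row' b]
  have h1 : ∀ p : Px ι, F (kz (cm M v e (V ∪ B) U (p.1 + rowS b p.2, 0))) *
      G (p.1 + rowS b p.2) = F (kz (cm M v e (V ∪ B) U p)) * G p.1 := by
    intro p
    rw [cm_rowS hb hbU]
    congr 1
    refine hG _ _ fun i j hi => ?_
    show p.1 i j + (if i = b then p.2 j else 0) = p.1 i j
    rw [if_neg (fun h : i = b => hi (h ▸ Finset.mem_insert_self b B)), add_zero]
  simp_rw [h1]
  exact steps hM (fun p : Px ι => G p.1) B V F hd hU hS fun p q h => hG _ _ fun i j hi =>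
    h i j fun h' => hi (Finset.mem_insert_of_mem h')

theorem gF_sub (F : ℕ → ℝ) (ℓ : ℝ) (k : ℕ) : ∀ c : ℕ,
    gF (fun z => F z - ℓ) k (2 ^ c) = gF F k (2 ^ c) - ℓ := by
  induction k with
  | zero => intro c; rfl
  | succ k ih =>
    intro c
    rw [gF_succ, gF_succ]
    have e1 : 2 * 2 ^ c = 2 ^ (c + 1) := by ring
    rcases c with _ | c
    · rw [e1, ih, ih, pow_zero]
      push_cast
      ring
    · have e2 : 2 ^ (c + 1) / 2 = 2 ^ c := by
        rw [pow_succ, Nat.mul_div_cancel _ (by norm_num)]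
      rw [e1, e2, ih, ih, ih]
      have h0 : ((2 ^ (c + 1) : ℕ) : ℝ) ≠ 0 := by positivity
      field_simp
      ring

/-- the distance from the limit -/
theorem lm_kz {F : ℕ → ℝ} {ℓ : ℝ} (hF : Lm F ℓ) {n : Type} [Fintype n] [DecidableEq n]
    (N : Matrix n n (ZMod 2)) (k : ℕ) : |gF F k (kz N) - ℓ| ≤ (kz N : ℝ) / 2 ^ k := by
  obtain ⟨c, hc⟩ := kz_pow N
  rw [hc]
  have := hF k c
  push_cast
  exact this

theorem pair_le (hM : M.IsSymm) {U V B : Finset ι} {b : ι} (hd : Disjoint B V) (hU : V ∪ B ⊆ U)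
    (hbU : b ∈ U) (hb : b ∉ V ∪ B) (hS : Sep v V) {F : ℕ → ℝ} {ℓ : ℝ} (hF : Lm F ℓ)
    {G : (ι → ι → ZMod 2) → ℝ} (hG : Inr (insert b B) G) (hG1 : ∀ x, |G x| ≤ 1) :
    |avg (fun x : ι → ι → ZMod 2 => (F (kz (cm M v e (V ∪ B) U (x, 0))) - ℓ) * G x)| ≤
      2 ^ (Fintype.card τ + 1) / 2 ^ B.card := by
  rw [pair_eq hM hd hU hbU hb hS (fun z => F z - ℓ) hG]
  refine (abs_avg _).trans ?_
  have h1 : ∀ p : Px ι, |gF (fun z => F z - ℓ) B.card (kz (cm M v e V U p)) * G p.1| ≤
      (kz (cm M v e V U p) : ℝ) * (1 / 2 ^ B.card) := by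
    intro p
    rw [abs_mul]
    have h2 : |gF (fun z => F z - ℓ) B.card (kz (cm M v e V U p))| ≤
        (kz (cm M v e V U p) : ℝ) / 2 ^ B.card := by
      obtain ⟨c, hc⟩ := kz_pow (cm M v e V U p)
      have h3 := lm_kz hF (cm M v e V U p) B.card
      rw [hc] at h3 ⊢
      rw [gF_sub]
      exact h3
    have h4 : (0 : ℝ) ≤ (kz (cm M v e V U p) : ℝ) / 2 ^ B.card := by positivity
    calc _ ≤ (kz (cm M v e V U p) : ℝ) / 2 ^ B.card * 1 :=
          mul_le_mul h2 (hG1 _) (abs_nonneg _) h4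
      _ = _ := by ring
  refine (avg_mono h1).trans ?_
  rw [avg_mulc, mul_one_div]
  exact div_le_div_of_nonneg_right (mean_kz hM V (Finset.subset_union_left.trans hU)) (by positivity)

/-- **The mean size of the kernel without randomization of the diagonal.** -/
theorem mean_any (hM : M.IsSymm) {U V : Finset ι} (hV : V ⊆ U) :
    avg (fun x : ι → ι → ZMod 2 => (kz (cm M v e V U (x, 0)) : ℝ)) ≤
      2 ^ (Fintype.card τ + 2) := by
  have h0 : ∀ {V' : Finset ι} {b : ι}, b ∉ V' → b ∈ U → V' ⊆ U →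
      avg (fun x : ι → ι → ZMod 2 => (kz (cm M v e V' U (x, 0)) : ℝ)) ≤
        2 ^ (Fintype.card τ + 1) := by
    intro V' b hb hbU hV'
    rw [avg_row' b]
    simp_rw [cm_rowS hb hbU]
    exact mean_kz hM V' hV'
  have h1 : (2 : ℝ) ^ (Fintype.card τ + 2) = 2 * 2 ^ (Fintype.card τ + 1) := by ring
  have h2 : (0 : ℝ) < 2 ^ (Fintype.card τ + 1) := by positivity
  rcases Finset.eq_empty_or_nonempty V with rfl | ⟨b, hb⟩
  · refine (avg_mono fun x => ?_).trans (le_of_eq (avg_const (2 ^ (Fintype.card τ + 2))))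
    have h2 := kz_le (cm M v e ∅ U (x, 0))
    rw [Fintype.card_sum] at h2
    have h3 : Fintype.card (↥(∅ : Finset ι)) = 0 := by simp
    rw [h3, add_zero] at h2
    have h4 : (2 : ℕ) ^ Fintype.card τ ≤ 2 ^ (Fintype.card τ + 2) :=
      Nat.pow_le_pow_right (by norm_num) (by omega)
    exact_mod_cast h2.trans h4
  · have hb' : b ∉ V.erase b := Finset.notMem_erase b V
    have h3 := h0 hb' (hV hb) ((Finset.erase_subset b V).trans hV)
    have h4 : ∀ x : ι → ι → ZMod 2, (kz (cm M v e V U (x, 0)) : ℝ) ≤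
        (kz (cm M v e (V.erase b) U (x, 0)) : ℝ) * 2 := by
      intro x
      have h5 := kz_insert (M := M) (v := v) (e := e) (W := U) hb' ((x, 0) : Px ι)
      rw [Finset.insert_erase hb] at h5
      have h6 := kz_sb_le (cm_symm (v := v) (e := e) hM (V.erase b) U ((x, 0) : Px ι))
        (Sum.elim (v b) fun j : ↥(V.erase b) => x b j + x j b)
        (e b + (0 : ι → ZMod 2) b + ∑ l ∈ U, (x b l + x l b))
      have h7 : kz (cm M v e V U (x, 0)) ≤ 2 * kz (cm M v e (V.erase b) U (x, 0)) := by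
        rw [h5]
        exact h6
      rw [mul_comm]
      exact_mod_cast h7
    refine (avg_mono h4).trans ?_
    rw [avg_mulc, h1]
    linarith

end

end Q155.NL
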